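import Pool.Agent.N144.TD.Lin

/-!
# Central elements of a division algebra of prime degree
-/

set_option autoImplicit false
set_option linter.unusedSectionVars false

namespace Pool.Agent.N144.TD

open Module Polynomial Pool.Agent.N144.DV

noncomputable section

section ring

variable {E B : Type*} [Field E] [CharZero E] [DivisionRing B] [Algebra E B]
  [FiniteDimensional E B]

/-- central elements are scalars -/
theorem central_scalar {p : ℕ} (hp : p.Prime) (hB : finrank E B = p ^ 2) {x y : B}
    (hxy : x * y ≠ y * x) {b : B} (hb : ∀ a, b * a = a * b) : ∃ c : E, b = algebraMap E B c := by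
  have hcomm : ∀ z : B, ∀ a ∈ Algebra.adjoin E {b}, z * a = a * z := fun z a ha =>
    (Algebra.commute_of_mem_adjoin_singleton_of_commute (R := E) ha (hb z).symm).eq
  have h1 : Subalgebra.toSubmodule (Algebra.adjoin E {b}) ≤ cz (E := E) x := by
    intro a ha
    rw [mem_cz]
    exact hcomm x a ha
  have h2 := Submodule.finrank_mono h1
  rw [finrank_cz hp hB hxy] at h2
  have h3 := sub_dvd (E := E) (Algebra.adjoin E {b})
  rw [hB] at h3
  obtain ⟨r, hr, hr2⟩ := (Nat.dvd_prime_pow hp).1 h3
  have h2' : finrank E (Algebra.adjoin E {b}) ≤ p := h2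
  interval_cases r
  · rw [pow_zero, Subalgebra.finrank_eq_one_iff] at hr2
    have h4 : b ∈ Algebra.adjoin E {b} := Algebra.subset_adjoin rfl
    rw [hr2, Algebra.mem_bot] at h4
    obtain ⟨c, hc⟩ := h4
    exact ⟨c, hc.symm⟩
  · exfalso
    rw [pow_one] at hr2
    have h4 : Subalgebra.toSubmodule (Algebra.adjoin E {b}) = cz (E := E) x :=
      Submodule.eq_of_le_of_finrank_eq h1 (by rw [finrank_cz hp hB hxy]; exact hr2)
    have h5 : x ∈ cz (E := E) x := mem_cz.2 rfl
    rw [← h4] at h5
    exact hxy (hcomm y x h5).symm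
  · exfalso
    rw [hr2] at h2'
    have h4 := hp.two_le
    nlinarith

end ring

section act

variable {k W : Type*} [Field k] [CharZero k] [AddCommGroup W] [Module k W]
  [FiniteDimensional k W]

/-- the endomorphisms which commute with a division algebra of prime degree have the centre `k` -/
theorem scalar_of_central {𝒟 : Subalgebra k (Module.End k W)}
    (hinj : ∀ P ∈ 𝒟, P ≠ 0 → Function.Injective P) {p : ℕ} (hp : p.Prime)
    (hW : finrank k W = p ^ 2) (hnc : ∃ Y ∈ 𝒟, ∃ Z ∈ 𝒟, Y * Z ≠ Z * Y)
    {x y : Module.End k W} (hx : ∀ P ∈ 𝒟, P * x = x * P) (hy : ∀ P ∈ 𝒟, P * y = y * P)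
    (hxy : x * y ≠ y * x) {b : Module.End k W} (hb : ∀ P ∈ 𝒟, P * b = b * P)
    (hbc : ∀ a, (∀ P ∈ 𝒟, P * a = a * P) → b * a = a * b) : ∃ c : k, b = c • 1 := by
  have hnt := nontrivial_of hxy
  have hdim := finrank_alg hinj hp hW hnc
  set B := Subalgebra.centralizer k (𝒟 : Set (Module.End k W)) with hBdef
  have hmem : ∀ b : Module.End k W, b ∈ B ↔ ∀ P ∈ 𝒟, P * b = b * P := fun b =>
    Subalgebra.mem_centralizer_iff k
  have hdom : IsDomain B := by
    have h1 : Nontrivial B := inferInstance
    have h2 : NoZeroDivisors B := by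
      refine ⟨fun {a b} hab => ?_⟩
      by_contra hcon
      push Not at hcon
      have ha : Function.Injective (a : Module.End k W) := inj_of_comm hinj hdim
        ((hmem _).1 a.2) (fun h => hcon.1 (Subtype.ext h))
      have hb : Function.Injective (b : Module.End k W) := inj_of_comm hinj hdim
        ((hmem _).1 b.2) (fun h => hcon.2 (Subtype.ext h))
      obtain ⟨v, hv⟩ := exists_ne (0 : W)
      have h3 : (a : Module.End k W) ((b : Module.End k W) v) = 0 :=
        congrArg (fun T : B => (T : Module.End k W) v) hab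
      apply hv
      apply hb
      apply ha
      rw [h3, map_zero, map_zero]
    exact NoZeroDivisors.to_isDomain _
  let _ : DivisionRing B := divisionRingOfFiniteDimensional k B
  have hfr : finrank k B = p ^ 2 := by rw [← hW]; exact finrank_comm hinj hdim
  have hxy' : (⟨x, (hmem x).2 hx⟩ : B) * ⟨y, (hmem y).2 hy⟩ ≠
      ⟨y, (hmem y).2 hy⟩ * ⟨x, (hmem x).2 hx⟩ := fun h => hxy (congrArg Subtype.val h)
  obtain ⟨c, hc⟩ := central_scalar (E := k) hp hfr hxy' (b := ⟨b, (hmem b).2 hb⟩)
    fun a => Subtype.ext (hbc a ((hmem _).1 a.2))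
  refine ⟨c, ?_⟩
  have h1 := congrArg Subtype.val hc
  rw [Algebra.algebraMap_eq_smul_one] at h1
  exact h1

end act

end

end Pool.Agent.N144.TD
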