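import Pool.Agent.N144.TD.Two

/-!
# Lie algebras of similitudes which are not commutative on the eigenspace
-/

set_option autoImplicit false
set_option linter.unusedSectionVars false

namespace Pool.Agent.N144.TD

open Module Pool.Agent.N144.DV

noncomputable section

variable {k V : Type} [Field k] [CharZero k] [AddCommGroup V] [Module k V]
  [FiniteDimensional k V] {p : ℕ} {𝒟 : Subalgebra k (End k V)} {J : End k V} {j : k}
  {ψ : V →ₗ[k] V →ₗ[k] k}

namespace DivisionType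

variable (h : DivisionType p 𝒟 J j ψ)

/-- the blocks of the elements of `L` which commute with `X` -/
def tt (L : Submodule k (End k V)) (X : End k V) : cn L X →ₗ[k] End k (WW J j) :=
  ph h.square ∘ₗ (cn L X).subtype

theorem range_tt {L : Submodule k (End k V)} (hL : L ≤ similitudes 𝒟 ψ) {X : End k V}
    (hX : X ∈ similitudes 𝒟 ψ) :
    LinearMap.range (h.tt L X) ≤ czW (DD 𝒟 h.ne_zero h.square h.central) (ph h.square X) := by
  rintro _ ⟨⟨Y, hY, hXY⟩, rfl⟩
  have hY' := hL hY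
  refine ⟨h.ph_comm hY', ?_⟩
  change ph h.square X * ph h.square Y = ph h.square Y * ph h.square X
  rw [← ph_mul h.ne_zero h.square (h.J_comm hX) (h.J_comm hY'),
    ← ph_mul h.ne_zero h.square (h.J_comm hY') (h.J_comm hX), hXY]

theorem finrank_ker_tt {L : Submodule k (End k V)} (hL : L ≤ similitudes 𝒟 ψ) (X : End k V) :
    finrank k (LinearMap.ker (h.tt L X)) ≤ 1 := by
  have h1 : (LinearMap.ker (h.tt L X)).map (cn L X).subtype ≤
      Submodule.span k {(1 - pr J j : End k V)} := by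
    rintro _ ⟨⟨Y, hY, hXY⟩, hY0, rfl⟩
    have h2 : ph h.square Y = 0 := hY0
    obtain ⟨c, hc⟩ := h.ker_ph (hL hY) h2
    exact Submodule.mem_span_singleton.2 ⟨c, hc.symm⟩
  have h2 := (Submodule.equivMapOfInjective (cn L X).subtype Subtype.val_injective
    (LinearMap.ker (h.tt L X))).finrank_eq
  rw [h2]
  refine (Submodule.finrank_mono h1).trans ?_
  exact (finrank_span_le_card _).trans (by simp)

/-- The centralizers have at most the dimension `p + 1`. -/
theorem finrank_cn_le {L : Submodule k (End k V)} (hL : L ≤ similitudes 𝒟 ψ) {X Y : End k V}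
    (hX : X ∈ similitudes 𝒟 ψ) (hY : Y ∈ similitudes 𝒟 ψ)
    (hXY : ph h.square X * ph h.square Y ≠ ph h.square Y * ph h.square X) :
    finrank k (cn L X) ≤ p + 1 := by
  have h1 := (act_main h.DD_inj h.prime h.finrank_W h.DD_noncomm (h.ph_comm hX) (h.ph_comm hY)
    hXY).1
  have h2 := LinearMap.finrank_range_add_finrank_ker (h.tt L X)
  have h3 := Submodule.finrank_mono (h.range_tt hL hX)
  rw [h1] at h3
  have h4 := h.finrank_ker_tt hL X
  omega

/-- **Theorem.** A Lie algebra of similitudes which is not commutative on the eigenspace, and whose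
centralizers have at least the dimension `p + 1`, contains all similitudes. -/
theorem full {L : Submodule k (End k V)} (hLie : ∀ X ∈ L, ∀ Y ∈ L, X * Y - Y * X ∈ L)
    (hL : L ≤ similitudes 𝒟 ψ) {X₀ Y₀ : End k V} (hX₀ : X₀ ∈ L) (hY₀ : Y₀ ∈ L)
    (hXY : ph h.square X₀ * ph h.square Y₀ ≠ ph h.square Y₀ * ph h.square X₀)
    (hrk : p + 1 ≤ finrank k (cn L X₀)) : similitudes 𝒟 ψ ≤ L := by
  set 𝔮 : Submodule k (End k (WW J j)) := L.map (ph h.square) with h𝔮
  obtain ⟨h1, h2, -, -⟩ := act_main h.DD_inj h.prime h.finrank_W h.DD_noncomm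
    (h.ph_comm (hL hX₀)) (h.ph_comm (hL hY₀)) hXY
  have hqc : ∀ X ∈ 𝔮, ∀ P ∈ DD 𝒟 h.ne_zero h.square h.central, P * X = X * P := by
    rintro _ ⟨X, hX, rfl⟩
    exact h.ph_comm (hL hX)
  have hqb : ∀ X ∈ 𝔮, ∀ Y ∈ 𝔮, X * Y - Y * X ∈ 𝔮 := by
    rintro _ ⟨X, hX, rfl⟩ _ ⟨Y, hY, rfl⟩
    refine ⟨X * Y - Y * X, hLie X hX Y hY, ?_⟩
    rw [map_sub, ph_mul h.ne_zero h.square (h.J_comm (hL hX)) (h.J_comm (hL hY)),
      ph_mul h.ne_zero h.square (h.J_comm (hL hY)) (h.J_comm (hL hX))]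
  -- the centralizer
  have e1 := LinearMap.finrank_range_add_finrank_ker (h.tt L X₀)
  have e2 := Submodule.finrank_mono (h.range_tt hL (hL hX₀))
  have e3 := h.finrank_ker_tt hL X₀
  rw [h1] at e2
  have e4 : LinearMap.range (h.tt L X₀) = czW (DD 𝒟 h.ne_zero h.square h.central)
      (ph h.square X₀) :=
    Submodule.eq_of_le_of_finrank_eq (h.range_tt hL (hL hX₀)) (by rw [h1]; omega)
  have e5 : (1 - pr J j : End k V) ∈ L := by
    have e6 : LinearMap.ker (h.tt L X₀) ≠ ⊥ := by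
      intro h0
      rw [h0, finrank_bot] at e1
      omega
    obtain ⟨⟨Y, hY, hXY'⟩, hY0, hne⟩ := (Submodule.ne_bot_iff _).1 e6
    obtain ⟨c, hc⟩ := h.ker_ph (hL hY) hY0
    have hc0 : c ≠ 0 := by
      rintro rfl
      apply hne
      apply Subtype.ext
      change Y = 0
      rw [hc, zero_smul]
    have e7 : (1 - pr J j : End k V) = c⁻¹ • Y := by
      rw [hc, smul_smul, inv_mul_cancel₀ hc0, one_smul]
    rw [e7]
    exact L.smul_mem _ hY
  have e6 : ∀ b, (∀ P ∈ DD 𝒟 h.ne_zero h.square h.central, P * b = b * P) → b ∈ 𝔮 := by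
    refine h2 𝔮 ?_ ?_
    · rw [← e4]
      rintro _ ⟨⟨Y, hY, -⟩, rfl⟩
      exact ⟨Y, hY, rfl⟩
    · intro b hb
      have e7 := span_comm (E := k) (Algebra.ofId k (End k (WW J j)))
        (DD 𝒟 h.ne_zero h.square h.central) (fun e => Subalgebra.algebraMap_mem _ e)
        (fun e P _ => (Algebra.commutes e P).symm) h.DD_inj
        (finrank_alg h.DD_inj h.prime h.finrank_W h.DD_noncomm) h.prime
        (by rw [finrank_self, one_mul, h.finrank_W]) 𝔮 hqc hqb ⟨X₀, hX₀, rfl⟩ ⟨Y₀, hY₀, rfl⟩ hXY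
        (h.ph_comm (hL hX₀)) hb
      refine (Submodule.span_le.2 ?_ : _ ≤ 𝔮) e7
      rintro _ ⟨e, q, hq, rfl⟩
      have e8 : (Algebra.ofId k (End k (WW J j))) e * q = e • q := by
        rw [Algebra.ofId_apply, Algebra.algebraMap_eq_smul_one, smul_mul_assoc, one_mul]
      rw [SetLike.mem_coe, e8]
      exact 𝔮.smul_mem _ hq
  intro X hX
  obtain ⟨Z, hZ, hZX⟩ := e6 _ (h.ph_comm hX)
  obtain ⟨c, hc⟩ := h.ker_ph (X := X - Z) (Submodule.sub_mem _ hX (hL hZ)) (by
    rw [map_sub, hZX, sub_self])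
  have e7 : X = Z + c • (1 - pr J j : End k V) := by
    rw [← hc]
    abel
  rw [e7]
  exact L.add_mem hZ (L.smul_mem _ e5)

end DivisionType

end

end Pool.Agent.N144.TD
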