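import Pool.Agent.N144.TD.Indep
import Pool.Agent.N144.TD.Full
import Pool.Agent.N144.TD.Cen

/-!
# Eigenvalues in an algebraically closed field
-/

set_option autoImplicit false
set_option linter.unusedSectionVars false

namespace Pool.Agent.N144.TD

open Module Polynomial TensorProduct

noncomputable section

section roots

variable {k Ω : Type} [Field k] [Field Ω] [Algebra k Ω] {W : Type} [AddCommGroup W]
  [Module k W] [FiniteDimensional k W]

theorem hasEigenvalue_of (T : End k W) {a : Ω} (ha : aeval a T.charpoly = 0) :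
    End.HasEigenvalue (T.baseChange Ω) a := by
  rw [Module.End.hasEigenvalue_iff_isRoot_charpoly, LinearMap.charpoly_baseChange, IsRoot.def,
    eval_map_algebraMap]
  exact ha

/-- the roots of the characteristic polynomial are roots of all polynomials which annihilate the
endomorphism -/
theorem root_of_charpoly (T : End k W) {a : Ω} (ha : aeval a T.charpoly = 0) (P : k[X])
    (hP : aeval T P = 0) : aeval a P = 0 := by
  obtain ⟨v, hv⟩ := (hasEigenvalue_of T ha).exists_hasEigenvector
  have h1 := Module.End.aeval_apply_of_hasEigenvector (p := P.map (algebraMap k Ω)) hv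
  have h2 : aeval (T.baseChange Ω) (P.map (algebraMap k Ω)) = 0 := by
    rw [aeval_map_algebraMap]
    have h3 := aeval_algHom_apply (Module.End.baseChangeHom k Ω W) T P
    rw [hP, map_zero] at h3
    exact h3
  rw [h2, LinearMap.zero_apply, eval_map_algebraMap] at h1
  exact (smul_eq_zero.1 h1.symm).resolve_right hv.2

theorem det_roots [IsAlgClosed Ω] (T : End k W) :
    algebraMap k Ω (LinearMap.det T) = (T.charpoly.aroots Ω).prod := by
  have h1 : (T.charpoly.map (algebraMap k Ω)).Splits := IsAlgClosed.splits _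
  have h2 := h1.coeff_zero_eq_prod_roots_of_monic (T.charpoly_monic.map _)
  rw [coeff_map, natDegree_map] at h2
  rw [LinearMap.det_eq_sign_charpoly_coeff, map_mul, h2, map_pow, map_neg, map_one,
    LinearMap.charpoly_natDegree, ← mul_assoc, ← mul_pow, neg_one_mul, neg_neg, one_pow, one_mul]

/-- polynomials which annihilate `g` annihilate its restriction to a stable subspace -/
theorem aeval_restrict {g : End k W} {U : Submodule k W} (hU : ∀ x ∈ U, g x ∈ U) {P : k[X]}
    (hP : aeval g P = 0) : aeval (g.restrict hU) P = 0 := by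
  refine LinearMap.ext fun x => Subtype.ext ?_
  have h1 : ∀ P : k[X], ((aeval (g.restrict hU) P x : U) : W) = aeval g P x := by
    intro P
    induction P using Polynomial.induction_on' with
    | add P Q h1 h2 => simp only [map_add, LinearMap.add_apply, Submodule.coe_add, h1, h2]
    | monomial m c =>
      rw [aeval_monomial, aeval_monomial, End.mul_apply, End.mul_apply, algebraMap_end_apply,
        algebraMap_end_apply, Submodule.coe_smul]
      congr 1
      have h2 : ∀ (m : ℕ) (x : U), (((g.restrict hU) ^ m) x : W) = (g ^ m) x := by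
        intro m
        induction m with
        | zero => intro x; rfl
        | succ m ih =>
          intro x
          rw [pow_succ, pow_succ, End.mul_apply, End.mul_apply, ih]
          rfl
      exact h2 m x
  rw [h1, hP]
  rfl

theorem pow_restrict' {g : End k W} {U : Submodule k W} (hU : ∀ x ∈ U, g x ∈ U) (m : ℕ)
    (hU' : ∀ x ∈ U, (g ^ m) x ∈ U) : (g ^ m).restrict hU' = (g.restrict hU) ^ m := by
  refine LinearMap.ext fun x => Subtype.ext ?_
  have h2 : ∀ (m : ℕ) (x : U), (((g.restrict hU) ^ m) x : W) = (g ^ m) x := by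
    intro m
    induction m with
    | zero => intro x; rfl
    | succ m ih =>
      intro x
      rw [pow_succ, pow_succ, End.mul_apply, End.mul_apply, ih]
      rfl
  rw [h2]
  rfl

end roots

variable {k Ω V : Type} [Field k] [CharZero k] [Field Ω] [IsAlgClosed Ω] [Algebra k Ω]
  [AddCommGroup V] [Module k V]
  [FiniteDimensional k V] {p : ℕ} {𝒟 : Subalgebra k (End k V)} {J : End k V} {j : k}
  {ψ : V →ₗ[k] V →ₗ[k] k}

/-- a variant of `exists_indep` -/
theorem exists_indep' {k Ω : Type*} [Field k] [CharZero k] [Field Ω] [IsAlgClosed Ω] [Algebra k Ω]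
    {f Q Q' : k[X]} (hf : Irreducible f) {p : ℕ} (hp : p.Prime) (hdeg : f.natDegree = p)
    (hQf : ∀ a : Ω, aeval a Q = 0 → aeval a f = 0)
    {d d' : k} (hd : algebraMap k Ω d = (Q.aroots Ω).prod)
    (hd' : algebraMap k Ω d' = (Q'.aroots Ω).prod)
    (hind : ∀ a b : ℤ, d ^ a * d' ^ b = 1 → a = 0 ∧ b = 0)
    (hns : ∀ M : ℕ, 0 < M → ∀ c : k, ∃ a : Ω, aeval a f = 0 ∧ a ^ M ≠ algebraMap k Ω c) :
    ∃ w : Fin (p + 1) → Ω, (∀ i, aeval (w i) f = 0 ∨ aeval (w i) Q' = 0) ∧
      ∀ e : Fin (p + 1) → ℤ, ∏ i, w i ^ e i = 1 → e = 0 := by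
  subst hdeg
  exact exists_indep hf hp hQf hd hd' hind hns

omit [CharZero k] in
theorem Generic.pow {g : End k V} (hg : Generic J j g) {m : ℕ} (hm : 0 < m) :
    Generic J j (g ^ m) := by
  have h1 : ∀ (c : k), (∀ x ∈ End.eigenspace J c, g x ∈ End.eigenspace J c) → ∀ m : ℕ,
      ∀ x ∈ End.eigenspace J c, (g ^ m) x ∈ End.eigenspace J c := by
    intro c hc m
    induction m with
    | zero => intro x hx; exact hx
    | succ m ih =>
      intro x hx
      rw [pow_succ', End.mul_apply]
      exact hc _ (ih x hx)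
  refine ⟨h1 j hg.stable m, h1 (-j) hg.stable' m, fun a b hab => ?_, fun n hn c => ?_⟩
  · rw [pow_restrict' hg.stable, pow_restrict' hg.stable', map_pow, map_pow, ← zpow_natCast,
      ← zpow_natCast, ← zpow_mul, ← zpow_mul] at hab
    obtain ⟨h2, h3⟩ := hg.independent _ _ hab
    have hm' : (m : ℤ) ≠ 0 := by exact_mod_cast hm.ne'
    exact ⟨(mul_eq_zero.1 h2).resolve_left hm', (mul_eq_zero.1 h3).resolve_left hm'⟩
  · rw [← pow_mul]
    exact hg.not_scalar _ (Nat.mul_pos hm hn) c

/-- **Independent eigenvalues.** -/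
theorem DivisionType.indep (h : DivisionType p 𝒟 J j ψ) {g : End k V} (hg : Generic J j g)
    (hgD : ∀ Y ∈ 𝒟, g * Y = Y * g) {X₁ Y₁ : End k V} (hX₁ : X₁ ∈ similitudes 𝒟 ψ)
    (hY₁ : Y₁ ∈ similitudes 𝒟 ψ)
    (hXY : ph h.square X₁ * ph h.square Y₁ ≠ ph h.square Y₁ * ph h.square X₁) :
    ∃ w : Fin (p + 1) → Ω, (∀ i, aeval (w i) g.charpoly = 0) ∧
      ∀ e : Fin (p + 1) → ℤ, ∏ i, w i ^ e i = 1 → e = 0 := by
  have hJg : J * g = g * J := (hgD J h.mem).symm
  have hres : ph h.square g = g.restrict hg.stable := by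
    refine LinearMap.ext fun w => Subtype.ext ?_
    rw [ph_apply h.ne_zero h.square hJg]
    rfl
  have hgc : ∀ P ∈ DD 𝒟 h.ne_zero h.square h.central, P * ph h.square g = ph h.square g * P := by
    rintro _ ⟨Y, hY, rfl⟩
    rw [← ph_mul h.ne_zero h.square (h.central Y hY) hJg,
      ← ph_mul h.ne_zero h.square hJg (h.central Y hY), hgD Y hY]
  -- the block of `g` is not central
  have hnc : ∃ y : End k (WW J j), (∀ P ∈ DD 𝒟 h.ne_zero h.square h.central, P * y = y * P) ∧
      ph h.square g * y ≠ y * ph h.square g := by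
    by_contra hcon
    push Not at hcon
    -- then `g` is in the centre of the centralizer
    have key : ∃ c : k, ph h.square g = c • 1 :=
      scalar_of_central h.DD_inj h.prime h.finrank_W h.DD_noncomm (h.ph_comm hX₁) (h.ph_comm hY₁)
        hXY hgc hcon
    obtain ⟨c, hc⟩ := key
    obtain ⟨x, hx, hne⟩ := hg.not_scalar 1 one_pos c
    apply hne
    rw [pow_one]
    have h5 : ((ph h.square g ⟨x, hx⟩ : WW J j) : V) = c • x := by
      rw [hc]
      rfl
    rwa [ph_apply h.ne_zero h.square hJg] at h5
  obtain ⟨y, hy, hgy⟩ := hnc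
  obtain ⟨-, -, hirr, hdeg⟩ := act_main h.DD_inj h.prime h.finrank_W h.DD_noncomm hgc hy hgy
  have hcp : aeval g g.charpoly = 0 := LinearMap.aeval_self_charpoly g
  have hns : ∀ M : ℕ, 0 < M → ∀ c : k, ∃ a : Ω, aeval a (minpoly k (ph h.square g)) = 0 ∧
      a ^ M ≠ algebraMap k Ω c := by
    intro M hM c
    by_contra hcon
    push Not at hcon
    obtain ⟨a, ha⟩ := IsAlgClosed.exists_aeval_eq_zero Ω (minpoly k (ph h.square g))
      (fun h0 => by
        have h1 := natDegree_eq_of_degree_eq_some h0
        rw [hdeg] at h1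
        exact h.prime.ne_zero h1)
    have h1 := hcon a ha
    have hmon : (minpoly k (ph h.square g)).Monic := minpoly.monic (Algebra.IsIntegral.isIntegral _)
    have h2 : minpoly k (ph h.square g) = minpoly k a := minpoly.eq_of_irreducible_of_monic hirr ha hmon
    have h3 : minpoly k (ph h.square g) ∣ X ^ M - C c := by
      rw [h2]
      apply minpoly.dvd
      rw [map_sub, map_pow, aeval_X, aeval_C, h1, sub_self]
    obtain ⟨R, hR⟩ := h3
    have h4 : (ph h.square g) ^ M = c • 1 := by
      have h5 := congrArg (aeval (ph h.square g)) hR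
      rw [map_mul, minpoly.aeval, zero_mul, map_sub, map_pow, aeval_X, aeval_C, sub_eq_zero,
        Algebra.algebraMap_eq_smul_one] at h5
      exact h5
    obtain ⟨x, hx, hne⟩ := hg.not_scalar M hM c
    apply hne
    have hst : ∀ m : ℕ, ∀ x ∈ End.eigenspace J j, (g ^ m) x ∈ End.eigenspace J j := by
      intro m
      induction m with
      | zero => intro x hx; exact hx
      | succ m ih =>
        intro x hx
        rw [pow_succ', End.mul_apply]
        exact hg.stable _ (ih x hx)
    rw [hres, ← pow_restrict' hg.stable M (hst M)] at h4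
    have h5 := congrArg (fun T : End k (WW J j) => ((T ⟨x, hx⟩ : WW J j) : V)) h4
    exact h5
  obtain ⟨w, hw1, hw2⟩ := exists_indep' (Ω := Ω) (f := minpoly k (ph h.square g))
    (Q := (g.restrict hg.stable).charpoly) (Q' := (g.restrict hg.stable').charpoly) hirr
    h.prime hdeg
    (fun a ha => root_of_charpoly _ ha _ (by rw [← hres]; exact minpoly.aeval k _))
    (det_roots _) (det_roots _) hg.independent hns
  · refine ⟨w, fun i => ?_, hw2⟩
    rcases hw1 i with h1 | h1
    · have h2 : minpoly k (ph h.square g) ∣ g.charpoly := by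
        apply minpoly.dvd
        rw [hres]
        exact aeval_restrict hg.stable hcp
      obtain ⟨R, hR⟩ := h2
      rw [hR, map_mul, h1, zero_mul]
    · exact root_of_charpoly _ h1 _ (aeval_restrict hg.stable' hcp)

end

end Pool.Agent.N144.TD
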