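import Pool.Agent.N144.TD.Eig
import Pool.Agent.N203.RE.Main

/-!
# The Galois representation
-/

set_option autoImplicit false
set_option linter.unusedSectionVars false
set_option linter.unusedVariables false

namespace Pool.Agent.N144.TD

open Module Polynomial TensorProduct Pool.Agent.Y114.RM
  Pool.Agent.Y114.MU Pool.Agent.Y114.TF Pool.Agent.Y114.GF Pool.Agent.H204R3.GP Pool.Agent.R931.IR
  Pool.Agent.N203.RE Pool.Agent.TH118.SG Pool.Agent.Y115.R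

noncomputable section

section gen

variable {k V : Type} [Field k] [CharZero k] [AddCommGroup V] [Module k V]
  [FiniteDimensional k V] {p : ℕ} {𝒟 : Subalgebra k (End k V)} {J : End k V} {j : k}
  {ψ : V →ₗ[k] V →ₗ[k] k}

/-- The trace of the projector. -/
theorem DivisionType.trace_pr (h : DivisionType p 𝒟 J j ψ) :
    LinearMap.trace k V (1 - pr J j) = (p ^ 2 : ℕ) := by
  have h1 : LinearMap.IsProj (WW J j) (pr J j) :=
    ⟨pr_mem h.square, fun x hx => pr_self h.ne_zero hx⟩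
  have h2 := h1.trace
  rw [map_sub, h2, LinearMap.trace_one, h.dim, h.finrank_W]
  push_cast
  ring

/-- If the blocks of the elements of a Lie algebra of similitudes commute, then it is commutative. -/
theorem DivisionType.commutative (h : DivisionType p 𝒟 J j ψ) {L : Submodule k (End k V)}
    (hLie : ∀ X ∈ L, ∀ Y ∈ L, X * Y - Y * X ∈ L) (hL : L ≤ similitudes 𝒟 ψ)
    (hc : ∀ X ∈ L, ∀ Y ∈ L, ph h.square X * ph h.square Y = ph h.square Y * ph h.square X) :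
    ∀ X ∈ L, ∀ Y ∈ L, X * Y = Y * X := by
  intro X hX Y hY
  obtain ⟨c, hc'⟩ := h.ker_ph (hL (hLie X hX Y hY)) (by
    rw [map_sub, ph_mul h.ne_zero h.square (h.J_comm (hL hX)) (h.J_comm (hL hY)),
      ph_mul h.ne_zero h.square (h.J_comm (hL hY)) (h.J_comm (hL hX)), hc X hX Y hY, sub_self])
  have h1 := congrArg (LinearMap.trace k V) hc'
  rw [map_sub, LinearMap.trace_mul_comm, sub_self, map_smul, h.trace_pr, smul_eq_mul] at h1
  have h2 : ((p ^ 2 : ℕ) : k) ≠ 0 := by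
    have := h.prime.pos
    exact_mod_cast (pow_pos this 2).ne'
  have h3 : c = 0 := (mul_eq_zero.1 h1.symm).resolve_right h2
  rw [h3, zero_smul, sub_eq_zero] at hc'
  exact hc'

end gen

section tate

variable {k V : Type} [Field k] [AddCommGroup V] [Module k V] {Γ : Type} [Group Γ]
  (ρ : Representation k Γ V)

/-- An endomorphism which commutes with `𝔤` commutes with a subgroup of finite index, if the tensors
killed by `𝔤` are Tate tensors. -/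
theorem comm_of_tate {𝔤 : Submodule k (End k V)}
    (htate : ∀ (m : ℕ) (φ : Tensor k V m), (∀ Y ∈ 𝔤, KillsTensor Y φ) → TateTensor ρ φ)
    {P : End k V} (hP : ∀ X ∈ 𝔤, X * P = P * X) :
    ∃ Δ : Subgroup Γ, Δ.FiniteIndex ∧ ∀ s ∈ Δ, ρ s * P = P * ρ s := by
  let ω : (V × Dual k V) →ₗ[k] (V × Dual k V) →ₗ[k] k :=
    LinearMap.mk₂ k (fun a b => b.2 (P a.1))
      (fun a a' b => by rw [Prod.fst_add, map_add, map_add])
      (fun c a b => by rw [Prod.smul_fst, map_smul, map_smul])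
      (fun a b b' => by rw [Prod.snd_add, LinearMap.add_apply])
      (fun c a b => by rw [Prod.smul_snd, LinearMap.smul_apply])
  let φ : Tensor k V 2 := Pool.Agent.H204R3.SP.bil2 ω
  have hφ : ∀ v, φ v = (v 1).2 (P (v 0).1) := fun v => rfl
  obtain ⟨Δ, hΔ, h1⟩ := htate 2 φ (by
    intro X hX v
    rw [Fin.sum_univ_two, hφ, hφ, Function.update_self, Function.update_self,
      Function.update_of_ne Fin.zero_ne_one.symm, Function.update_of_ne Fin.zero_ne_one]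
    change (v 1).2 (P (X (v 0).1)) + -((v 1).2 (X (P (v 0).1))) = 0
    have h2 := LinearMap.congr_fun (hP X hX) (v 0).1
    rw [Module.End.mul_apply, Module.End.mul_apply] at h2
    rw [h2, add_neg_cancel])
  refine ⟨Δ, hΔ, fun s hs => ?_⟩
  refine LinearMap.ext fun x => ?_
  rw [← sub_eq_zero, ← Module.forall_dual_apply_eq_zero_iff k]
  intro ξ
  have h2 := h1 s hs ![(x, 0), (0, (ρ s).dualMap ξ)]
  rw [hφ, hφ] at h2
  change ξ (ρ s (ρ s⁻¹ (P (ρ s x)))) = ξ (ρ s (P x)) at h2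
  rw [← Module.End.mul_apply (ρ s), ← map_mul, mul_inv_cancel, map_one, Module.End.one_apply] at h2
  rw [map_sub, Module.End.mul_apply, Module.End.mul_apply, h2, sub_self]

/-- A finite-dimensional algebra which commutes with `𝔤` commutes with a subgroup of finite index. -/
theorem algebra_comm_of_tate [FiniteDimensional k V] {𝔤 : Submodule k (End k V)}
    (htate : ∀ (m : ℕ) (φ : Tensor k V m), (∀ Y ∈ 𝔤, KillsTensor Y φ) → TateTensor ρ φ)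
    {𝒟 : Subalgebra k (End k V)} (hD : ∀ X ∈ 𝔤, ∀ P ∈ 𝒟, X * P = P * X) :
    ∃ Δ : Subgroup Γ, Δ.FiniteIndex ∧ ∀ s ∈ Δ, ∀ P ∈ 𝒟, ρ s * P = P * ρ s := by
  let b := Module.finBasis k 𝒟
  have h1 : ∀ i, ∃ Δ : Subgroup Γ, Δ.FiniteIndex ∧ ∀ s ∈ Δ, ρ s * (b i : End k V) =
      (b i : End k V) * ρ s := fun i =>
    comm_of_tate ρ htate fun X hX => hD X hX _ (b i).2
  choose Δ hΔ h2 using h1
  refine ⟨⨅ i, Δ i, Subgroup.finiteIndex_iInf hΔ, fun s hs P hP => ?_⟩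
  have h3 : ∀ P : 𝒟, ρ s * (P : End k V) = (P : End k V) * ρ s := by
    intro P
    have h4 := b.sum_repr P
    have h5 : (P : End k V) = ∑ i, b.repr P i • (b i : End k V) := by
      conv_lhs => rw [← h4]
      rw [AddSubmonoidClass.coe_finsetSum]
      rfl
    rw [h5, Finset.mul_sum, Finset.sum_mul]
    refine Finset.sum_congr rfl fun i _ => ?_
    rw [mul_smul_comm, smul_mul_assoc, h2 i s (Subgroup.mem_iInf.1 hs i)]
  exact h3 ⟨P, hP⟩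

end tate

section main

variable {Γ : Type} [Group Γ] [TopologicalSpace Γ] [IsTopologicalGroup Γ] [CompactSpace Γ]
  {ι : Type} [Fintype ι] [DecidableEq ι] {n : ι → ℕ} {ℓ : ℕ} [Fact ℓ.Prime] (ρ : Reps Γ n ℓ)

/-- No subgroup of finite index acts by commuting operators. -/
def NotPotentiallyAbelian : Prop := ∀ Δ : Subgroup Γ, Δ.FiniteIndex →
  ∃ a ∈ Δ, ∃ b ∈ Δ, sumRep ρ a * sumRep ρ b ≠ sumRep ρ b * sumRep ρ a

theorem main_aux (hρ : Conts ρ) (𝔤 : Submodule ℚ_[ℓ] (End ℚ_[ℓ] (∀ i, Fin (n i) → ℚ_[ℓ])))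
    (h𝔤 : IsMotivic ρ 𝔤) {p : ℕ}
    {𝒟 : Subalgebra ℚ_[ℓ] (End ℚ_[ℓ] (∀ i, Fin (n i) → ℚ_[ℓ]))}
    {J : End ℚ_[ℓ] (∀ i, Fin (n i) → ℚ_[ℓ])} {j : ℚ_[ℓ]}
    {ψ : (∀ i, Fin (n i) → ℚ_[ℓ]) →ₗ[ℚ_[ℓ]] (∀ i, Fin (n i) → ℚ_[ℓ]) →ₗ[ℚ_[ℓ]] ℚ_[ℓ]}
    (h : DivisionType p 𝒟 J j ψ) (hD : 𝔤 ≤ similitudes 𝒟 ψ)
    (hab : NotPotentiallyAbelian ρ) (σ : Γ) (hσ : Generic J j (sumRep ρ σ)) :
    ∃ (X₀ Y₀ : End ℚ_[ℓ] (∀ i, Fin (n i) → ℚ_[ℓ])), X₀ ∈ 𝔤 ∧ Y₀ ∈ 𝔤 ∧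
      ph h.square X₀ * ph h.square Y₀ ≠ ph h.square Y₀ * ph h.square X₀ ∧
      𝔤 = similitudes 𝒟 ψ ∧ Semisimple ρ ∧
      (∀ (m : ℕ) (φ : Tensor ℚ_[ℓ] (∀ i, Fin (n i) → ℚ_[ℓ]) m), TateTensor (sumRep ρ) φ ↔
        ∀ X ∈ 𝔤, KillsTensor X φ) ∧
      ∃ M : ℕ, IndependentEigenvalues ρ (σ ^ M) (p + 1) := by
  classical
  have hin := inputs
  have hin2 := inputs2
  obtain ⟨j₁, hj₁⟩ := exists_j ℓ ℚ_[ℓ] ℚ (algebraMap ℚ ℚ_[ℓ]) (algebraMap ℚ ℂ)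
  let _ : Algebra ℚ_[ℓ] ℂ := j₁.toAlgebra
  obtain ⟨L, hL, hLie, hAd, -⟩ := hin.lie ℚ_[ℓ] (∀ i, Fin (n i) → ℚ_[ℓ]) _ (sumRep ρ)
  have hLG : L ≤ 𝔤 := fun X hX => h𝔤.algebraic X fun m φ hφ => ((hL X).1 hX).2 m φ (h𝔤.tate m φ hφ)
  have hLs : L ≤ similitudes 𝒟 ψ := hLG.trans hD
  -- the blocks do not commute
  have hnc : ∃ X₀ ∈ L, ∃ Y₀ ∈ L,
      ph h.square X₀ * ph h.square Y₀ ≠ ph h.square Y₀ * ph h.square X₀ := by
    by_contra hcon
    push Not at hcon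
    have h1 := h.commutative hLie hLs hcon
    obtain ⟨Δ', hΔ', hcomm⟩ := hin2.tfr ℓ ι n _ ρ hρ (comm L) (comm_conj (sumRep ρ) hAd)
      (comm_order (sumRep ρ) hin hin2 hL)
    have h2 : ∀ s ∈ Δ', sumRep ρ s ∈ comm L := fun s hs X hX =>
      (hcomm s hs X fun Y hY => h1 Y hY X hX).symm
    obtain ⟨a, ha, b, hb, hne⟩ := hab Δ' hΔ'
    exact hne (hcomm a ha _ (h2 b hb))
  obtain ⟨X₀, hX₀, Y₀, hY₀, hXY⟩ := hnc
  -- a power of `σ` commutes with `𝒟`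
  obtain ⟨Δ, hΔ, hΔD⟩ := algebra_comm_of_tate (sumRep ρ) h𝔤.tate (𝒟 := 𝒟)
    fun X hX P hP => (hD hX).1 P hP
  obtain ⟨M, hM, -, hMΔ⟩ := Subgroup.exists_pow_mem_of_index_ne_zero hΔ.index_ne_zero σ
  have hg : Generic J j (sumRep ρ (σ ^ M)) := by
    rw [map_pow]
    exact hσ.pow hM
  -- the eigenvalues
  obtain ⟨z, hz, hind⟩ := h.indep (Ω := ℂ) hg (hΔD _ hMΔ) (hLs hX₀) (hLs hY₀) hXY
  have hz' : ∀ i, End.HasEigenvalue ((sumRep ρ (σ ^ M)).baseChange ℂ) (z i) := fun i =>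
    hasEigenvalue_of _ (hz i)
  -- the rank
  have hrk : ∀ x ∈ L, p + 1 ≤ finrank ℚ_[ℓ] (cen L x) := by
    intro x hx
    obtain ⟨θ', θ, P, hP⟩ := hin.rd _ ((sumRep ρ (σ ^ M)).baseChange ℂ)
      (injective_of_mul (g' := (sumRep ρ (σ ^ M)⁻¹).baseChange ℂ)
        (by rw [← bc_mul, Pool.Agent.Y114.RM.rho_inv_mul, bc_one])) (p + 1) z hz' hind
    obtain ⟨h', hh'⟩ := exists_op ((sumRep ρ (σ ^ M)).baseChange ℂ) (fun z => ext0 θ' z)
    have hex : ∀ j, ∃ t : End ℂ (ℂ ⊗[ℚ_[ℓ]] (∀ i, Fin (n i) → ℚ_[ℓ])),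
        IsOp (θ j) ((sumRep ρ (σ ^ M)).baseChange ℂ) t := fun j =>
      exists_op ((sumRep ρ (σ ^ M)).baseChange ℂ) (fun z => ext0 (θ j) z)
    choose t ht using hex
    have h3 := inputs3.rank ℂ _ (bcS ℂ L) ((hin.bc ℚ_[ℓ] ℂ _ L).2.1 hLie) h'
      (op_mem (sumRep ρ) hin hL _ θ' h' hh') (p + 1) P t
      (fun j => op_mem (sumRep ρ) hin hL _ (θ j) (t j) (ht j)) (hP h' t hh' ht) (x.baseChange ℂ)
      (mem_bcS hx)
    rwa [(hin.bc ℚ_[ℓ] ℂ _ L).2.2.2.1 x] at h3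
  have hfull : similitudes 𝒟 ψ ≤ L := h.full hLie hLs hX₀ hY₀ hXY (hrk X₀ hX₀)
  have heq : 𝔤 = similitudes 𝒟 ψ := le_antisymm hD (hfull.trans hLG)
  have hGL : 𝔤 ≤ L := hD.trans hfull
  refine ⟨X₀, Y₀, hLG hX₀, hLG hY₀, hXY, heq, ?_, fun m φ => ⟨fun hφ X hX =>
    ((hL X).1 (hGL hX)).2 m φ hφ, h𝔤.tate m φ⟩, M, ?_⟩
  · exact hin.concl ℚ_[ℓ] ι _ Γ ρ 𝔤 h𝔤 fun X hX => (hL X).1 (hGL hX)
  · obtain ⟨w, hw, hwi⟩ := h.indep (Ω := PadicAlgCl ℓ) hg (hΔD _ hMΔ) (hLs hX₀) (hLs hY₀) hXY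
    have hcomp : ∀ a : Fin (p + 1), ∃ i, EigenvalueOf ρ i (σ ^ M) (w a) := by
      intro a
      by_contra hcon
      push Not at hcon
      have h1 : aeval (w a) (∏ i, (ρ i (σ ^ M)).charpoly) ≠ 0 := by
        rw [map_prod]
        exact Finset.prod_ne_zero_iff.2 fun i _ => hcon i
      apply h1
      refine root_of_charpoly _ (hw a) _ ?_
      refine LinearMap.ext fun x => funext fun i => ?_
      have h2 : ∀ (Q : ℚ_[ℓ][X]) (x : ∀ i, Fin (n i) → ℚ_[ℓ]) (i : ι),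
          (aeval (sumRep ρ (σ ^ M)) Q) x i = (aeval (ρ i (σ ^ M)) Q) (x i) := by
        intro Q x i
        induction Q using Polynomial.induction_on' with
        | add P Q h1 h2 => simp only [map_add, LinearMap.add_apply, Pi.add_apply, h1, h2]
        | monomial m c =>
          rw [aeval_monomial, aeval_monomial, Module.End.mul_apply, Module.End.mul_apply,
            Module.algebraMap_end_apply, Module.algebraMap_end_apply, Pi.smul_apply]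
          congr 1
          induction m generalizing x with
          | zero => rfl
          | succ m ih =>
            rw [pow_succ, pow_succ, Module.End.mul_apply, Module.End.mul_apply, ih]
            rfl
      rw [h2]
      have h3 : aeval (ρ i (σ ^ M)) (∏ i, (ρ i (σ ^ M)).charpoly) = 0 := by
        obtain ⟨R, hR⟩ := Finset.dvd_prod_of_mem (fun i => (ρ i (σ ^ M)).charpoly)
          (Finset.mem_univ i)
        rw [hR, map_mul, LinearMap.aeval_self_charpoly, zero_mul]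
      rw [h3]
      rfl
    choose κ hκ using hcomp
    exact ⟨κ, w, hκ, hwi⟩

/-- The rank of a rational Lie algebra whose scalar extension is the Lie algebra of the similitudes. -/
theorem ratRank {𝔤 : Submodule ℚ (End ℚ (Betti n))} {p : ℕ}
    {𝒟 : Subalgebra ℚ_[ℓ] (End ℚ_[ℓ] (∀ i, Fin (n i) → ℚ_[ℓ]))}
    {J : End ℚ_[ℓ] (∀ i, Fin (n i) → ℚ_[ℓ])} {j : ℚ_[ℓ]}
    {ψ : (∀ i, Fin (n i) → ℚ_[ℓ]) →ₗ[ℚ_[ℓ]] (∀ i, Fin (n i) → ℚ_[ℓ]) →ₗ[ℚ_[ℓ]] ℚ_[ℓ]}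
    (h : DivisionType p 𝒟 J j ψ) (hD : scal ℓ 𝔤 ≤ similitudes 𝒟 ψ)
    {X₀ Y₀ : End ℚ_[ℓ] (∀ i, Fin (n i) → ℚ_[ℓ])} (hX₀ : X₀ ∈ scal ℓ 𝔤) (hY₀ : Y₀ ∈ scal ℓ 𝔤)
    (hXY : ph h.square X₀ * ph h.square Y₀ ≠ ph h.square Y₀ * ph h.square X₀) :
    RatRankLE 𝔤 (p + 1) := by
  have hex : ∃ X ∈ 𝔤, ph h.square ((ee (n := n) ℓ).conj (X.baseChange ℚ_[ℓ])) * ph h.square Y₀ ≠
      ph h.square Y₀ * ph h.square ((ee (n := n) ℓ).conj (X.baseChange ℚ_[ℓ])) := by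
    by_contra hcon
    push Not at hcon
    apply hXY
    have h1 : X₀ ∈ Submodule.span ℚ_[ℓ] {Y : LadicEnd n ℓ | ∃ X ∈ 𝔤, Extends X Y} := hX₀
    clear hXY hX₀
    induction h1 using Submodule.span_induction with
    | mem Z hZ =>
      obtain ⟨X, hX, h2⟩ := hZ
      rw [(extends_iff ℓ X Z).1 h2]
      exact hcon X hX
    | zero => rw [map_zero, zero_mul, mul_zero]
    | add A B _ _ hA hB => rw [map_add, add_mul, mul_add, hA, hB]
    | smul c A _ hA => rw [map_smul, smul_mul_assoc, mul_smul_comm, hA]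
  obtain ⟨X, hX, hne⟩ := hex
  refine ⟨X, hX, ?_⟩
  have hX' : (ee (n := n) ℓ).conj (X.baseChange ℚ_[ℓ]) ∈ scal ℓ 𝔤 :=
    (mem_scalars ℓ).2 (mem_bcS hX)
  have h1 := h.finrank_cn_le hD (hD hX') (hD hY₀) hne
  refine le_trans (le_of_eq ?_) h1
  rw [← (inputs.bc ℚ ℚ_[ℓ] (Betti n) 𝔤).2.2.2.1 X]
  have h2 : cn (scal ℓ 𝔤) ((ee ℓ).conj (X.baseChange ℚ_[ℓ])) =
      (cen (bcS ℚ_[ℓ] 𝔤) (X.baseChange ℚ_[ℓ])).map (ee (n := n) ℓ).conj.toLinearMap := by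
    ext Z
    obtain ⟨Y, rfl⟩ := exists_conj ℓ Z
    change ((ee ℓ).conj Y ∈ scal ℓ 𝔤 ∧ _) ↔ _
    rw [mem_scalars, ← Pool.Agent.N203.RE.conj_mul, ← Pool.Agent.N203.RE.conj_mul,
      Submodule.mem_map]
    constructor
    · rintro ⟨h3, h4⟩
      exact ⟨Y, ⟨h3, (ee ℓ).conj.injective h4⟩, rfl⟩
    · rintro ⟨Y', ⟨h3, h4⟩, h5⟩
      have h6 : Y' = Y := (ee ℓ).conj.injective h5
      subst h6
      exact ⟨h3, congrArg _ h4⟩
  rw [h2]
  exact (LinearEquiv.finrank_map_eq (ee ℓ).conj _).symm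

end main

end

end Pool.Agent.N144.TD
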