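import Mathlib

/-!
# Definitions
-/

set_option autoImplicit false

namespace Pool.Agent.N144.TD

open Module

variable {k V : Type} [Field k] [AddCommGroup V] [Module k V]

/-- Let `V` be a vector space of dimension `2 p ^ 2`, `p` a prime number, with a nondegenerate form `ψ`,
and let `𝒟` be an algebra of endomorphisms, `J` an element of its centre, with `J ^ 2 = j ^ 2`, `j ≠ 0`,
whose adjoint for `ψ` is `- J`. On the eigenspace `V_λ` of `J` for the eigenvalue `j` the algebra `𝒟` acts
as a noncommutative division algebra. -/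
structure DivisionType (p : ℕ) (𝒟 : Subalgebra k (End k V)) (J : End k V) (j : k)
    (ψ : V →ₗ[k] V →ₗ[k] k) : Prop where
  prime : p.Prime
  dim : finrank k V = 2 * p ^ 2
  mem : J ∈ 𝒟
  central : ∀ Y ∈ 𝒟, J * Y = Y * J
  ne_zero : j ≠ 0
  square : J * J = j ^ 2 • (1 : End k V)
  nondegenerate : (∀ x, (∀ y, ψ x y = 0) → x = 0) ∧ ∀ y, (∀ x, ψ x y = 0) → y = 0
  adjoint : ∀ x y, ψ (J x) y = -ψ x (J y)
  division : ∀ Y ∈ 𝒟, ∀ x, J x = j • x → x ≠ 0 → Y x = 0 → ∀ y, J y = j • y → Y y = 0
  noncommutative : ∃ Y ∈ 𝒟, ∃ Z ∈ 𝒟, ∃ x, J x = j • x ∧ Y (Z x) ≠ Z (Y x)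

/-- The endomorphism `g` preserves the two eigenspaces of `J`, its determinants on them are
multiplicatively independent, and no power of `g` is a scalar on the first one. -/
structure Generic (J : End k V) (j : k) (g : End k V) : Prop where
  stable : ∀ x ∈ End.eigenspace J j, g x ∈ End.eigenspace J j
  stable' : ∀ x ∈ End.eigenspace J (-j), g x ∈ End.eigenspace J (-j)
  independent : ∀ a b : ℤ, LinearMap.det (g.restrict stable) ^ a *
    LinearMap.det (g.restrict stable') ^ b = 1 → a = 0 ∧ b = 0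
  not_scalar : ∀ m : ℕ, 0 < m → ∀ c : k, ∃ x ∈ End.eigenspace J j, (g ^ m) x ≠ c • x

end Pool.Agent.N144.TD
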