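import Pool.Agent.N144.TD.Lin
import Pool.Agent.N144.TD.Defs

/-!
# Spaces with a form and with multiplication by an algebra which is a division algebra on one of two
dual subspaces
-/

set_option autoImplicit false
set_option linter.unusedSectionVars false

namespace Pool.Agent.N144.TD

open Module

noncomputable section

variable {k V : Type} [Field k] [AddCommGroup V] [Module k V]

/-- The Lie algebra of the endomorphisms which commute with `𝒟` and are similitudes of `ψ`. -/
def similitudes (𝒟 : Subalgebra k (End k V)) (ψ : V →ₗ[k] V →ₗ[k] k) :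
    Submodule k (End k V) where
  carrier := {X | (∀ Y ∈ 𝒟, X * Y = Y * X) ∧ ∃ c, ∀ x y, ψ (X x) y + ψ x (X y) = c * ψ x y}
  zero_mem' := ⟨fun Y _ => by rw [zero_mul, mul_zero], 0, fun x y => by simp⟩
  add_mem' := by
    rintro A B ⟨hA, c, hc⟩ ⟨hB, d, hd⟩
    refine ⟨fun Y hY => by rw [add_mul, mul_add, hA Y hY, hB Y hY], c + d, fun x y => ?_⟩
    rw [LinearMap.add_apply, LinearMap.add_apply, map_add, map_add, LinearMap.add_apply, add_mul,
      ← hc, ← hd]
    ring
  smul_mem' := by
    rintro a A ⟨hA, c, hc⟩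
    refine ⟨fun Y hY => by rw [smul_mul_assoc, mul_smul_comm, hA Y hY], a * c, fun x y => ?_⟩
    rw [LinearMap.smul_apply, LinearMap.smul_apply, map_smul, map_smul, LinearMap.smul_apply,
      smul_eq_mul, smul_eq_mul, mul_assoc, ← hc]
    ring

/-- the elements of `L` which commute with `X` -/
def cn (L : Submodule k (End k V)) (X : End k V) : Submodule k (End k V) where
  carrier := {Y | Y ∈ L ∧ X * Y = Y * X}
  add_mem' := by
    rintro a b ⟨ha, ha'⟩ ⟨hb, hb'⟩
    exact ⟨L.add_mem ha hb, by rw [mul_add, add_mul, ha', hb']⟩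
  zero_mem' := ⟨L.zero_mem, by rw [mul_zero, zero_mul]⟩
  smul_mem' := by
    rintro c a ⟨ha, ha'⟩
    exact ⟨L.smul_mem c ha, by rw [mul_smul_comm, smul_mul_assoc, ha']⟩

/-- the projector to the eigenspace -/
def pr (J : End k V) (j : k) : End k V := (2 * j)⁻¹ • (J + j • (1 : End k V))

/-- the eigenspace -/
abbrev WW (J : End k V) (j : k) : Submodule k V := End.eigenspace J j

variable {p : ℕ} {𝒟 : Subalgebra k (End k V)} {J : End k V} {j : k} {ψ : V →ₗ[k] V →ₗ[k] k}

section basic

variable [CharZero k] (hj : j ≠ 0) (hJ : J * J = j ^ 2 • (1 : End k V))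

include hJ in
theorem J_sq (x : V) : J (J x) = j ^ 2 • x := by
  have h1 := LinearMap.congr_fun hJ x
  rwa [End.mul_apply, LinearMap.smul_apply, End.one_apply] at h1

theorem pr_apply (x : V) : pr J j x = (2 * j)⁻¹ • (J x + j • x) := rfl

include hJ in
theorem pr_mem (x : V) : pr J j x ∈ WW J j := by
  rw [End.mem_eigenspace_iff, pr_apply, map_smul, map_add, map_smul, J_sq hJ, smul_comm j]
  congr 1
  rw [smul_add, smul_smul, add_comm, sq]

include hJ hj in
theorem sub_pr_mem (x : V) : x - pr J j x ∈ WW J (-j) := by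
  rw [End.mem_eigenspace_iff]
  have h2 : (2 * j) ≠ 0 := mul_ne_zero two_ne_zero hj
  have h1 : x - pr J j x = (2 * j)⁻¹ • (j • x - J x) := by
    rw [pr_apply]
    have h3 : x = (2 * j)⁻¹ • ((2 * j) • x) := by rw [smul_smul, inv_mul_cancel₀ h2, one_smul]
    nth_rewrite 1 [h3]
    rw [← smul_sub]
    congr 1
    rw [two_mul, add_smul]
    abel
  rw [h1, map_smul, map_sub, map_smul, J_sq hJ, smul_comm (-j)]
  congr 1
  rw [neg_smul, smul_sub, smul_smul, sq]
  abel

include hj in
theorem pr_self {x : V} (hx : x ∈ WW J j) : pr J j x = x := by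
  rw [End.mem_eigenspace_iff] at hx
  have h2 : (2 * j) ≠ 0 := mul_ne_zero two_ne_zero hj
  rw [pr_apply, hx, ← add_smul, ← two_mul, smul_smul, inv_mul_cancel₀ h2, one_smul]

include hj in
theorem pr_zero {x : V} (hx : x ∈ WW J (-j)) : pr J j x = 0 := by
  rw [End.mem_eigenspace_iff] at hx
  rw [pr_apply, hx, neg_smul, neg_add_cancel, smul_zero]

/-- the projection to the eigenspace -/
def prW (hJ : J * J = j ^ 2 • (1 : End k V)) : V →ₗ[k] WW J j :=
  (pr J j).codRestrict (WW J j) (pr_mem hJ)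

/-- the block of an endomorphism on the eigenspace -/
def ph (hJ : J * J = j ^ 2 • (1 : End k V)) : End k V →ₗ[k] End k (WW J j) where
  toFun A := (prW hJ) ∘ₗ A ∘ₗ (WW J j).subtype
  map_add' A B := by
    refine LinearMap.ext fun x => ?_
    simp only [LinearMap.comp_apply, LinearMap.add_apply, map_add]
  map_smul' c A := by
    refine LinearMap.ext fun x => ?_
    simp only [LinearMap.comp_apply, LinearMap.smul_apply, map_smul, RingHom.id_apply]

include hj in
theorem ph_apply {A : End k V} (hA : J * A = A * J) (w : WW J j) :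
    ((ph hJ A w : WW J j) : V) = A w := by
  change pr J j (A w) = A w
  apply pr_self hj
  rw [End.mem_eigenspace_iff]
  have h1 := LinearMap.congr_fun hA (w : V)
  rw [End.mul_apply, End.mul_apply, End.mem_eigenspace_iff.1 w.2, map_smul] at h1
  exact h1

include hj in
theorem ph_mul {A B : End k V} (hA : J * A = A * J) (hB : J * B = B * J) :
    ph hJ (A * B) = ph hJ A * ph hJ B := by
  refine LinearMap.ext fun w => Subtype.ext ?_
  have hAB : J * (A * B) = A * B * J := by rw [← mul_assoc, hA, mul_assoc, hB, mul_assoc]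
  rw [ph_apply hj hJ hAB, End.mul_apply, End.mul_apply, ph_apply hj hJ hA, ph_apply hj hJ hB]

include hj in
theorem ph_one : ph hJ (1 : End k V) = 1 := by
  refine LinearMap.ext fun w => Subtype.ext ?_
  rw [ph_apply hj hJ (by rw [mul_one, one_mul])]
  rfl

/-- the blocks of the elements of an algebra -/
def DD (𝒟 : Subalgebra k (End k V)) (hj : j ≠ 0) (hJ : J * J = j ^ 2 • (1 : End k V))
    (hc : ∀ Y ∈ 𝒟, J * Y = Y * J) : Subalgebra k (End k (WW J j)) where
  carrier := {P | ∃ Y ∈ 𝒟, P = ph hJ Y}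
  mul_mem' := by
    rintro _ _ ⟨Y, hY, rfl⟩ ⟨Z, hZ, rfl⟩
    exact ⟨Y * Z, 𝒟.mul_mem hY hZ, (ph_mul hj hJ (hc Y hY) (hc Z hZ)).symm⟩
  one_mem' := ⟨1, 𝒟.one_mem, (ph_one hj hJ).symm⟩
  add_mem' := by
    rintro _ _ ⟨Y, hY, rfl⟩ ⟨Z, hZ, rfl⟩
    exact ⟨Y + Z, 𝒟.add_mem hY hZ, (map_add _ _ _).symm⟩
  zero_mem' := ⟨0, 𝒟.zero_mem, (map_zero _).symm⟩
  algebraMap_mem' c := ⟨algebraMap k _ c, 𝒟.algebraMap_mem c, by
    rw [Algebra.algebraMap_eq_smul_one, Algebra.algebraMap_eq_smul_one, map_smul, ph_one hj hJ]⟩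

end basic

namespace DivisionType

variable [CharZero k] [FiniteDimensional k V] (h : DivisionType p 𝒟 J j ψ)

include h

theorem isotropic {c : k} (hc : c ≠ 0) {x y : V} (hx : x ∈ WW J c) (hy : y ∈ WW J c) :
    ψ x y = 0 := by
  rw [End.mem_eigenspace_iff] at hx hy
  have h1 := h.adjoint x y
  rw [hx, hy, map_smul, LinearMap.smul_apply, map_smul, smul_eq_mul] at h1
  have h2 : (2 * c) * ψ x y = 0 := by linear_combination h1
  exact (mul_eq_zero.1 h2).resolve_left (mul_ne_zero two_ne_zero hc)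

theorem split (x : V) : ∃ a ∈ WW J j, ∃ b ∈ WW J (-j), x = a + b :=
  ⟨pr J j x, pr_mem h.square x, x - pr J j x, sub_pr_mem h.ne_zero h.square x, by abel⟩

theorem left_zero {c : k} (hc : c = j ∨ c = -j) {x : V} (hx : x ∈ WW J c)
    (h0 : ∀ y ∈ WW J (-c), ψ x y = 0) : x = 0 := by
  apply h.nondegenerate.1 x
  intro y
  obtain ⟨a, ha, b, hb, rfl⟩ := h.split y
  have hj := h.ne_zero
  rcases hc with rfl | rfl
  · rw [map_add, h.isotropic hj hx ha, h0 b hb, add_zero]
  · rw [neg_neg] at h0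
    rw [map_add, h0 a ha, h.isotropic (neg_ne_zero.2 hj) hx hb, add_zero]

theorem finrank_le {c : k} (hc : c = j ∨ c = -j) :
    finrank k (WW J c) ≤ finrank k (WW J (-c)) := by
  let F : WW J c →ₗ[k] Dual k (WW J (-c)) :=
    { toFun := fun x => (ψ x) ∘ₗ (WW J (-c)).subtype
      map_add' := fun x y => by
        refine LinearMap.ext fun z => ?_
        simp only [Submodule.coe_add, map_add, LinearMap.comp_apply, LinearMap.add_apply]
      map_smul' := fun a x => by
        refine LinearMap.ext fun z => ?_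
        simp only [Submodule.coe_smul, map_smul, LinearMap.comp_apply, LinearMap.smul_apply,
          RingHom.id_apply] }
  have hF : Function.Injective F := by
    rw [injective_iff_map_eq_zero]
    rintro ⟨x, hx⟩ h0
    apply Subtype.ext
    exact h.left_zero hc hx fun y hy => LinearMap.congr_fun h0 ⟨y, hy⟩
  have h1 := LinearMap.finrank_le_finrank_of_injective hF
  rwa [Subspace.dual_finrank_eq] at h1

theorem finrank_W : finrank k (WW J j) = p ^ 2 := by
  have h1 := h.finrank_le (c := j) (Or.inl rfl)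
  have h2 := h.finrank_le (c := -j) (Or.inr rfl)
  rw [neg_neg] at h2
  have h3 := Submodule.finrank_sup_add_finrank_inf_eq (WW J j) (WW J (-j))
  have h4 : WW J j ⊔ WW J (-j) = ⊤ := by
    rw [eq_top_iff]
    intro x _
    obtain ⟨a, ha, b, hb, rfl⟩ := h.split x
    exact Submodule.add_mem_sup ha hb
  have h5 : WW J j ⊓ WW J (-j) = ⊥ := by
    rw [eq_bot_iff]
    rintro x ⟨hx, hy⟩
    rw [SetLike.mem_coe, End.mem_eigenspace_iff] at hx hy
    rw [Submodule.mem_bot]
    have h6 : (2 * j) • x = 0 := by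
      rw [two_mul, add_smul]
      nth_rewrite 1 [← hx]
      rw [hy, neg_smul, neg_add_cancel]
    exact (smul_eq_zero.1 h6).resolve_left (mul_ne_zero two_ne_zero h.ne_zero)
  rw [h4, h5, finrank_top, finrank_bot, h.dim] at h3
  omega

theorem DD_inj : ∀ P ∈ DD 𝒟 h.ne_zero h.square h.central, P ≠ 0 → Function.Injective P := by
  rintro _ ⟨Y, hY, rfl⟩ hne
  rw [injective_iff_map_eq_zero]
  intro w hw
  by_contra hw0
  apply hne
  have h1 := ph_apply h.ne_zero h.square (h.central Y hY)
  have h2 : Y w = 0 := by rw [← h1, hw]; rfl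
  refine LinearMap.ext fun y => Subtype.ext ?_
  rw [h1]
  exact h.division Y hY w (End.mem_eigenspace_iff.1 w.2) (fun h0 => hw0 (Subtype.ext h0)) h2 y
    (End.mem_eigenspace_iff.1 y.2)

theorem DD_noncomm : ∃ Y ∈ DD 𝒟 h.ne_zero h.square h.central,
    ∃ Z ∈ DD 𝒟 h.ne_zero h.square h.central, Y * Z ≠ Z * Y := by
  obtain ⟨Y, hY, Z, hZ, x, hx, hne⟩ := h.noncommutative
  refine ⟨_, ⟨Y, hY, rfl⟩, _, ⟨Z, hZ, rfl⟩, fun h0 => hne ?_⟩
  have h1 := congrArg (fun T : End k (WW J j) => ((T ⟨x, End.mem_eigenspace_iff.2 hx⟩ : WW J j) : V)) h0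
  simp only [End.mul_apply] at h1
  rwa [ph_apply h.ne_zero h.square (h.central Y hY), ph_apply h.ne_zero h.square (h.central Z hZ),
    ph_apply h.ne_zero h.square (h.central Z hZ), ph_apply h.ne_zero h.square (h.central Y hY)] at h1

omit [FiniteDimensional k V] in
theorem J_comm {X : End k V} (hX : X ∈ similitudes 𝒟 ψ) : J * X = X * J := (hX.1 J h.mem).symm

theorem ph_comm {X : End k V} (hX : X ∈ similitudes 𝒟 ψ) :
    ∀ P ∈ DD 𝒟 h.ne_zero h.square h.central, P * ph h.square X = ph h.square X * P := by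
  rintro _ ⟨Y, hY, rfl⟩
  rw [← ph_mul h.ne_zero h.square (h.central Y hY) (h.J_comm hX),
    ← ph_mul h.ne_zero h.square (h.J_comm hX) (h.central Y hY), hX.1 Y hY]

/-- a similitude which kills the eigenspace is a multiple of the other projector -/
theorem ker_ph {X : End k V} (hX : X ∈ similitudes 𝒟 ψ) (h0 : ph h.square X = 0) :
    ∃ c : k, X = c • (1 - pr J j) := by
  have hJX := h.J_comm hX
  obtain ⟨-, c, hc⟩ := hX
  refine ⟨c, LinearMap.ext fun x => ?_⟩
  obtain ⟨a, ha, b, hb, rfl⟩ := h.split x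
  have h1 : ∀ a ∈ WW J j, X a = 0 := by
    intro a ha
    rw [← ph_apply h.ne_zero h.square hJX ⟨a, ha⟩, h0]
    rfl
  have h2 : X b = c • b := by
    rw [← sub_eq_zero]
    apply h.nondegenerate.2
    intro y
    obtain ⟨a', ha', b', hb', rfl⟩ := h.split y
    have h3 := hc a' b
    rw [h1 a' ha', map_zero, LinearMap.zero_apply, zero_add] at h3
    have hXb : X b ∈ WW J (-j) := by
      rw [End.mem_eigenspace_iff] at hb ⊢
      have h4 := LinearMap.congr_fun hJX b
      rwa [End.mul_apply, End.mul_apply, hb, map_smul] at h4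
    have h5 : ψ b' (X b) = 0 := h.isotropic (neg_ne_zero.2 h.ne_zero) hb' hXb
    have h6 : ψ b' b = 0 := h.isotropic (neg_ne_zero.2 h.ne_zero) hb' hb
    rw [map_add, LinearMap.add_apply, map_sub, map_sub, map_smul, map_smul, h3, h5, h6, smul_eq_mul,
      smul_eq_mul, sub_self, mul_zero, sub_self, add_zero]
  rw [map_add, h1 a ha, h2, zero_add, LinearMap.smul_apply, LinearMap.sub_apply, End.one_apply,
    map_add, pr_self h.ne_zero ha, pr_zero h.ne_zero hb]
  congr 1
  abel

end DivisionType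

end

end Pool.Agent.N144.TD
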