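import Pool.Agent.N144.DV.Root

/-!
# Multiplicative relations between the roots of an irreducible polynomial of prime degree
-/

set_option autoImplicit false

namespace Pool.Agent.N144.TD

open Polynomial Module

noncomputable section

/-- the polynomial with the coefficients `e i` for `i < p` -/
def pol (p : ℕ) (e : ℕ → ℤ) : ℤ[X] := ∑ i ∈ Finset.range p, C (e i) * X ^ i

theorem coeff_pol (p : ℕ) (e : ℕ → ℤ) {i : ℕ} (hi : i < p) : (pol p e).coeff i = e i := by
  unfold pol
  rw [finsetSum_coeff]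
  simp only [coeff_C_mul, coeff_X_pow]
  rw [Finset.sum_eq_single i]
  · rw [if_pos rfl, mul_one]
  · intro b _ hb
    rw [if_neg (Ne.symm hb), mul_zero]
  · intro h
    exact absurd (Finset.mem_range.2 hi) h

theorem natDegree_pol (p : ℕ) (hp : 0 < p) (e : ℕ → ℤ) : (pol p e).natDegree ≤ p - 1 := by
  unfold pol
  refine natDegree_sum_le_of_forall_le _ _ fun i hi => ?_
  rw [Finset.mem_range] at hi
  exact (natDegree_C_mul_X_pow_le _ _).trans (by omega)

theorem const_of_dvd {p : ℕ} (hp : p.Prime) {e : ℕ → ℤ}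
    (h : cyclotomic p ℚ ∣ (pol p e).map (Int.castRingHom ℚ)) : ∀ i < p, e i = e 0 := by
  obtain ⟨q, hq⟩ := h
  have hcy : cyclotomic p ℚ ≠ 0 := cyclotomic_ne_zero p ℚ
  obtain ⟨z, rfl⟩ : ∃ z, q = C z := by
    by_cases hq0 : q = 0
    · exact ⟨0, by rw [hq0, C_0]⟩
    have hdeg : ((pol p e).map (Int.castRingHom ℚ)).natDegree ≤ p - 1 :=
      natDegree_map_le.trans (natDegree_pol p hp.pos e)
    rw [hq, natDegree_mul hcy hq0, natDegree_cyclotomic, Nat.totient_prime hp] at hdeg
    have hq1 : q.natDegree = 0 := by omega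
    rw [natDegree_eq_zero] at hq1
    obtain ⟨z, hz⟩ := hq1
    exact ⟨z, hz.symm⟩
  have : Fact p.Prime := ⟨hp⟩
  have key : ∀ i < p, (e i : ℚ) = z := by
    intro i hi
    have h1 := congrArg (fun P : ℚ[X] => P.coeff i) hq
    simp only [coeff_map, coeff_pol p e hi, coeff_mul_C, cyclotomic_prime ℚ p] at h1
    rw [finsetSum_coeff] at h1
    simp only [coeff_X_pow] at h1
    rw [Finset.sum_eq_single i (fun b _ hb => if_neg (Ne.symm hb))
      (fun h => absurd (Finset.mem_range.2 hi) h), if_pos rfl, one_mul] at h1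
    exact h1
  intro i hi
  have h1 := key i hi
  rw [← key 0 hp.pos] at h1
  exact_mod_cast h1

/-- clearing denominators in the theorem of Bezout -/
theorem bezout {a b : ℤ[X]} (h : IsCoprime (a.map (Int.castRingHom ℚ)) (b.map (Int.castRingHom ℚ))) :
    ∃ (u w : ℤ[X]) (N : ℤ), N ≠ 0 ∧ u * a + w * b = C N := by
  obtain ⟨u, w, h⟩ := h
  obtain ⟨b1, h1⟩ := IsLocalization.integerNormalization_map_to_map (nonZeroDivisors ℤ) u
  obtain ⟨b2, h2⟩ := IsLocalization.integerNormalization_map_to_map (nonZeroDivisors ℤ) w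
  set u1 := IsLocalization.integerNormalization (nonZeroDivisors ℤ) u
  set w1 := IsLocalization.integerNormalization (nonZeroDivisors ℤ) w
  have hb1 : (b1 : ℤ) ≠ 0 := nonZeroDivisors.ne_zero b1.2
  have hb2 : (b2 : ℤ) ≠ 0 := nonZeroDivisors.ne_zero b2.2
  refine ⟨C (b2 : ℤ) * u1, C (b1 : ℤ) * w1, b1 * b2, mul_ne_zero hb1 hb2, ?_⟩
  apply map_injective (Int.castRingHom ℚ) (RingHom.injective_int _)
  have h1' : u1.map (Int.castRingHom ℚ) = (b1 : ℤ) • u := h1
  have h2' : w1.map (Int.castRingHom ℚ) = (b2 : ℤ) • w := h2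
  simp only [Polynomial.map_add, Polynomial.map_mul, map_C, h1', h2', zsmul_eq_mul]
  simp only [eq_intCast, Int.cast_mul, ← C_eq_intCast, map_mul, C_mul]
  have h3 : C ((b2 : ℤ) : ℚ) * (C ((b1 : ℤ) : ℚ) * u) * a.map (Int.castRingHom ℚ) +
      C ((b1 : ℤ) : ℚ) * (C ((b2 : ℤ) : ℚ) * w) * b.map (Int.castRingHom ℚ) =
      C ((b1 : ℤ) : ℚ) * C ((b2 : ℤ) : ℚ) := by
    linear_combination (C ((b1 : ℤ) : ℚ) * C ((b2 : ℤ) : ℚ)) * h
  exact h3

/-- A relation between the conjugates under a cyclic permutation of prime order, which is invariant. -/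
theorem cyc_rel {A : Type*} [AddCommGroup A] {p : ℕ} (hp : p.Prime) (T : End ℤ A) (v : A)
    (hT : (T ^ p) v = v) (e : ℕ → ℤ)
    (h : T (∑ i ∈ Finset.range p, e i • (T ^ i) v) = ∑ i ∈ Finset.range p, e i • (T ^ i) v) :
    (∀ i < p, e i = e 0) ∨ ∃ M : ℕ, 0 < M ∧ M • (T v - v) = 0 := by
  by_cases hd : cyclotomic p ℚ ∣ (pol p e).map (Int.castRingHom ℚ)
  · exact Or.inl (const_of_dvd hp hd)
  right
  have hirr := cyclotomic.irreducible_rat (n := p) hp.pos
  have hco : IsCoprime ((pol p e).map (Int.castRingHom ℚ))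
      ((cyclotomic p ℤ).map (Int.castRingHom ℚ)) := by
    rw [map_cyclotomic]
    exact (hirr.coprime_iff_not_dvd.2 hd).symm
  obtain ⟨u, w, N, hN, hbz⟩ := bezout hco
  have : Fact p.Prime := ⟨hp⟩
  have hcy := cyclotomic_prime_mul_X_sub_one ℤ p
  have e1 : u * ((X - 1) * pol p e) + w * (X ^ p - 1) = C N * (X - 1) := by
    rw [← hcy]
    linear_combination (X - 1 : ℤ[X]) * hbz
  have hpol : aeval T (pol p e) v = ∑ i ∈ Finset.range p, e i • (T ^ i) v := by
    unfold pol
    rw [map_sum, LinearMap.sum_apply]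
    refine Finset.sum_congr rfl fun i _ => ?_
    rw [map_mul, aeval_C, map_pow, aeval_X, Module.End.mul_apply, algebraMap_end_apply]
  have e2 : aeval T (C N * (X - 1 : ℤ[X])) v = 0 := by
    rw [← e1, map_add, LinearMap.add_apply, map_mul, Module.End.mul_apply, map_mul,
      Module.End.mul_apply, map_mul, Module.End.mul_apply, hpol]
    have e3 : aeval T (X - 1 : ℤ[X]) (∑ i ∈ Finset.range p, e i • (T ^ i) v) = 0 := by
      rw [map_sub, aeval_X, map_one, LinearMap.sub_apply, Module.End.one_apply, h, sub_self]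
    have e4 : aeval T (X ^ p - 1 : ℤ[X]) v = 0 := by
      rw [map_sub, map_pow, aeval_X, map_one, LinearMap.sub_apply, hT, Module.End.one_apply,
        sub_self]
    rw [e3, e4, map_zero, map_zero, add_zero]
  rw [map_mul, Module.End.mul_apply, aeval_C, algebraMap_end_apply, map_sub, aeval_X, map_one,
    LinearMap.sub_apply, Module.End.one_apply] at e2
  refine ⟨N.natAbs, Int.natAbs_pos.2 hN, ?_⟩
  have e3 : (N.natAbs : ℤ) • (T v - v) = 0 := by
    rcases Int.natAbs_eq N with h' | h'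
    · rw [← h']
      exact e2
    · have h5 : (N.natAbs : ℤ) = -N := by omega
      rw [h5, neg_smul, e2, neg_zero]
  rwa [natCast_zsmul] at e3

end

end Pool.Agent.N144.TD
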