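import Pool.Agent.N144.TD.Roots

/-!
# Multiplicatively independent eigenvalues
-/

set_option autoImplicit false

namespace Pool.Agent.N144.TD

open Polynomial Module

noncomputable section

/-- `x` depends on the numbers `z i`, for `i < p` -/
def Dep {Ω : Type*} [Field Ω] (p : ℕ) (z : ℕ → Ω) (x : Ω) : Prop :=
  ∃ m : ℤ, m ≠ 0 ∧ ∃ e : ℕ → ℤ, x ^ m = ∏ i ∈ Finset.range p, z i ^ e i

theorem Dep.one {Ω : Type*} [Field Ω] (p : ℕ) (z : ℕ → Ω) : Dep p z 1 :=
  ⟨1, one_ne_zero, fun _ => 0, by simp⟩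

theorem Dep.mul {Ω : Type*} [Field Ω] {p : ℕ} {z : ℕ → Ω} (hz : ∀ i, z i ≠ 0) {x y : Ω}
    (hx : Dep p z x) (hy : Dep p z y) : Dep p z (x * y) := by
  obtain ⟨m, hm, e, he⟩ := hx
  obtain ⟨m', hm', e', he'⟩ := hy
  refine ⟨m * m', mul_ne_zero hm hm', fun i => e i * m' + e' i * m, ?_⟩
  rw [mul_zpow, zpow_mul, he, mul_comm m m', zpow_mul, he', ← Finset.prod_zpow,
    ← Finset.prod_zpow, ← Finset.prod_mul_distrib]
  refine Finset.prod_congr rfl fun i _ => ?_
  rw [zpow_add₀ (hz i), zpow_mul, zpow_mul]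

variable {k Ω : Type*} [Field k] [CharZero k] [Field Ω] [IsAlgClosed Ω] [Algebra k Ω]

theorem prod_roots_mem {Q : k[X]} (hQ : Q.Monic) :
    ∃ c : k, algebraMap k Ω c = (Q.aroots Ω).prod := by
  refine ⟨(-1) ^ Q.natDegree * Q.coeff 0, ?_⟩
  have h1 : (Q.map (algebraMap k Ω)).Splits := IsAlgClosed.splits _
  have h2 := h1.coeff_zero_eq_prod_roots_of_monic (hQ.map _)
  rw [coeff_map, natDegree_map] at h2
  rw [map_mul, h2, map_pow, map_neg, map_one, ← mul_assoc, ← mul_pow, neg_one_mul, neg_neg,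
    one_pow, one_mul]

/-- **Independent eigenvalues.** -/
theorem exists_indep {f Q Q' : k[X]} (hf : Irreducible f) (hp : f.natDegree.Prime)
    (hQf : ∀ a : Ω, aeval a Q = 0 → aeval a f = 0)
    {d d' : k} (hd : algebraMap k Ω d = (Q.aroots Ω).prod)
    (hd' : algebraMap k Ω d' = (Q'.aroots Ω).prod)
    (hind : ∀ a b : ℤ, d ^ a * d' ^ b = 1 → a = 0 ∧ b = 0)
    (hns : ∀ M : ℕ, 0 < M → ∀ c : k, ∃ a : Ω, aeval a f = 0 ∧ a ^ M ≠ algebraMap k Ω c) :
    ∃ w : Fin (f.natDegree + 1) → Ω, (∀ i, aeval (w i) f = 0 ∨ aeval (w i) Q' = 0) ∧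
      ∀ e : Fin (f.natDegree + 1) → ℤ, ∏ i, w i ^ e i = 1 → e = 0 := by
  classical
  obtain ⟨z, hz0, hz, hzall, hzinj, hrel⟩ := exists_roots (Ω := Ω) hf hp
  set p := f.natDegree with hpdef
  have hrel' : ∀ (e : ℕ → ℤ) (c : k), ∏ i ∈ Finset.range p, z i ^ e i = algebraMap k Ω c →
      ∀ i < p, e i = e 0 := by
    intro e c h
    rcases hrel e c h with h1 | ⟨M, hM, c', h1⟩
    · exact h1
    · exfalso
      obtain ⟨a, ha, hne⟩ := hns M hM c'
      obtain ⟨i, -, rfl⟩ := hzall a ha
      exact hne (h1 i)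
  -- the determinant
  have hdz : ∃ N : ℤ, algebraMap k Ω d = (∏ i ∈ Finset.range p, z i) ^ N := by
    have h1 : (Q.aroots Ω).prod = ∏ i ∈ Finset.range p, z i ^ ((Q.aroots Ω).count (z i) : ℤ) := by
      rw [Finset.prod_multiset_count]
      have hinj : Set.InjOn z (Finset.range p : Set ℕ) := by
        intro i hi j hj hij
        exact hzinj i (Finset.mem_range.1 (Finset.mem_coe.1 hi)) j
          (Finset.mem_range.1 (Finset.mem_coe.1 hj)) hij
      have h2 : ∏ a ∈ (Finset.range p).image z, a ^ (Q.aroots Ω).count a =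
          ∏ i ∈ Finset.range p, z i ^ (Q.aroots Ω).count (z i) := Finset.prod_image hinj
      simp only [zpow_natCast]
      rw [← h2]
      refine Finset.prod_subset ?_ ?_
      · intro a ha
        rw [Multiset.mem_toFinset, mem_aroots] at ha
        obtain ⟨i, hi, rfl⟩ := hzall a (hQf a ha.2)
        exact Finset.mem_image.2 ⟨i, Finset.mem_range.2 hi, rfl⟩
      · intro a _ ha
        rw [Multiset.mem_toFinset, ← Multiset.count_eq_zero] at ha
        rw [ha, pow_zero]
    rw [h1] at hd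
    have h3 := hrel' _ d hd.symm
    refine ⟨((Q.aroots Ω).count (z 0) : ℤ), ?_⟩
    rw [hd, ← Finset.prod_zpow]
    refine Finset.prod_congr rfl fun i hi => ?_
    rw [h3 i (Finset.mem_range.1 hi)]
  obtain ⟨N, hN⟩ := hdz
  have hinjk : Function.Injective (algebraMap k Ω) := (algebraMap k Ω).injective
  have hN0 : N ≠ 0 := by
    rintro rfl
    rw [zpow_zero] at hN
    have h1 : d = 1 := hinjk (by rw [hN, map_one])
    have h2 := hind 1 0 (by rw [h1, one_zpow, zpow_zero, one_mul])
    exact one_ne_zero h2.1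
  have hzind : ∀ e : ℕ → ℤ, ∏ i ∈ Finset.range p, z i ^ e i = 1 → ∀ i < p, e i = 0 := by
    intro e he
    have h1 := hrel' e 1 (by rw [he, map_one])
    have h2 : (∏ i ∈ Finset.range p, z i) ^ e 0 = 1 := by
      rw [← he, ← Finset.prod_zpow]
      exact Finset.prod_congr rfl fun i hi => by rw [h1 i (Finset.mem_range.1 hi)]
    have h3 : d ^ e 0 = 1 := by
      apply hinjk
      rw [map_zpow₀, hN, map_one, ← zpow_mul, mul_comm, zpow_mul, h2, one_zpow]
    have h4 := (hind (e 0) 0 (by rw [h3, zpow_zero, one_mul])).1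
    intro i hi
    rw [h1 i hi, h4]
  have hnd : ¬ ∀ b : Ω, aeval b Q' = 0 → Dep p z b := by
    intro hall
    have h1 : Dep p z (Q'.aroots Ω).prod := by
      have h2 : ∀ s : Multiset Ω, (∀ b ∈ s, Dep p z b) → Dep p z s.prod := by
        intro s
        induction s using Multiset.induction_on with
        | empty => intro _; rw [Multiset.prod_zero]; exact Dep.one p z
        | cons b s ih =>
          intro h
          rw [Multiset.prod_cons]
          exact Dep.mul hz0 (h b (Multiset.mem_cons_self b s))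
            (ih fun c hc => h c (Multiset.mem_cons_of_mem hc))
      exact h2 _ fun b hb => hall b (mem_aroots.1 hb).2
    rw [← hd'] at h1
    obtain ⟨m, hm, e, he⟩ := h1
    have h2 := hrel' e (d' ^ m) (by rw [map_zpow₀, he])
    have h3 : algebraMap k Ω d' ^ m = (∏ i ∈ Finset.range p, z i) ^ e 0 := by
      rw [he, ← Finset.prod_zpow]
      exact Finset.prod_congr rfl fun i hi => by rw [h2 i (Finset.mem_range.1 hi)]
    have h4 : d ^ (-(e 0)) * d' ^ (m * N) = 1 := by
      apply hinjk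
      have hd0 : algebraMap k Ω d ≠ 0 := by
        rw [hN]
        exact zpow_ne_zero _ (Finset.prod_ne_zero_iff.2 fun i _ => hz0 i)
      rw [map_mul, map_zpow₀, map_zpow₀, zpow_mul, h3, ← zpow_mul, mul_comm (e 0) N, zpow_mul,
        ← hN, ← zpow_add₀ hd0, neg_add_cancel, zpow_zero, map_one]
    exact mul_ne_zero hm hN0 (hind _ _ h4).2
  push Not at hnd
  obtain ⟨b, hb, hbd⟩ := hnd
  refine ⟨Fin.snoc (α := fun _ => Ω) (fun i : Fin p => z i) b, fun i => ?_, fun e he => ?_⟩
  · refine Fin.lastCases ?_ (fun i => ?_) i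
    · rw [Fin.snoc_last]
      exact Or.inr hb
    · rw [Fin.snoc_castSucc]
      exact Or.inl (hz i)
  · rw [Fin.prod_univ_castSucc] at he
    simp only [Fin.snoc_castSucc, Fin.snoc_last] at he
    let e' : ℕ → ℤ := fun i => if h : i < p then e (Fin.castSucc ⟨i, h⟩) else 0
    have h1 : ∏ i : Fin p, z i ^ e (Fin.castSucc i) = ∏ i ∈ Finset.range p, z i ^ e' i := by
      rw [Finset.prod_range]
      refine Finset.prod_congr rfl fun i _ => ?_
      simp only [e', i.2, dif_pos]
    rw [h1] at he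
    have hlast : e (Fin.last p) = 0 := by
      by_contra hne
      apply hbd
      refine ⟨e (Fin.last p), hne, fun i => -e' i, ?_⟩
      have h2 : (∏ i ∈ Finset.range p, z i ^ e' i) ≠ 0 :=
        Finset.prod_ne_zero_iff.2 fun i _ => zpow_ne_zero _ (hz0 i)
      simp only [zpow_neg, Finset.prod_inv_distrib]
      exact eq_inv_of_mul_eq_one_right he
    rw [hlast, zpow_zero, mul_one] at he
    have h3 := hzind e' he
    funext i
    refine Fin.lastCases hlast (fun i => ?_) i
    have h4 := h3 i i.2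
    simp only [e', i.2, dif_pos] at h4
    exact h4

end

end Pool.Agent.N144.TD
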