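import Pool.Agent.N144.DV.Comm

/-!
# Division algebras of prime degree acting on a space of rank one
-/

set_option autoImplicit false
set_option linter.unusedSectionVars false

namespace Pool.Agent.N144.TD

open Module Polynomial Pool.Agent.N144.DV

noncomputable section

section ring

variable {E B : Type*} [Field E] [CharZero E] [DivisionRing B] [Algebra E B]
  [FiniteDimensional E B]

/-- a noncommutative division algebra whose dimension divides `p ^ 2` has the dimension `p ^ 2` -/
theorem dim_of_noncomm {p : ℕ} (hp : p.Prime) (hB : finrank E B ∣ p ^ 2) {x y : B}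
    (hxy : x * y ≠ y * x) : finrank E B = p ^ 2 := by
  obtain ⟨a, ha, ha2⟩ := (Nat.dvd_prime_pow hp).1 hB
  interval_cases a
  · exfalso
    rw [pow_zero] at ha2
    obtain ⟨v, hv, h⟩ := finrank_eq_one_iff'.1 ha2
    obtain ⟨c, hc⟩ := h x
    obtain ⟨d, hd⟩ := h y
    obtain ⟨u, hu⟩ := h 1
    have hx : ∃ c : E, x = algebraMap E B c := by
      have hu0 : u ≠ 0 := by
        rintro rfl
        rw [zero_smul] at hu
        exact zero_ne_one hu
      refine ⟨c * u⁻¹, ?_⟩
      rw [Algebra.algebraMap_eq_smul_one, ← hu, ← hc, smul_smul, mul_assoc, inv_mul_cancel₀ hu0,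
        mul_one]
    obtain ⟨c', rfl⟩ := hx
    exact hxy (Algebra.commutes c' y)
  · exfalso
    rw [pow_one] at ha2
    -- the subalgebra generated by `x`
    have hS := sub_dvd (E := E) (Algebra.adjoin E {x})
    rw [ha2] at hS
    rcases (Nat.dvd_prime hp).1 hS with h1 | h1
    · rw [Subalgebra.finrank_eq_one_iff] at h1
      have h2 : x ∈ Algebra.adjoin E {x} := Algebra.subset_adjoin rfl
      rw [h1, Algebra.mem_bot] at h2
      obtain ⟨c, rfl⟩ := h2
      exact hxy (Algebra.commutes c y)
    · have h2 : Algebra.adjoin E {x} = ⊤ := by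
        apply Subalgebra.toSubmodule_injective
        rw [Algebra.top_toSubmodule]
        exact Submodule.eq_top_of_finrank_eq (by rw [ha2]; exact h1)
      have h3 : y ∈ Algebra.adjoin E {x} := by
        rw [h2]
        exact Algebra.mem_top
      rw [Algebra.adjoin_singleton_eq_range_aeval] at h3
      obtain ⟨P, rfl⟩ := h3
      exact hxy (by
        have h4 := Algebra.commute_of_mem_adjoin_self (R := E) (a := x) (b := aeval x P) (by
          rw [Algebra.adjoin_singleton_eq_range_aeval]
          exact ⟨P, rfl⟩)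
        exact h4)
  · exact ha2

/-- the centralizer of an element -/
def cz (x : B) : Submodule E B := LinearMap.ker (LinearMap.mulLeft E x - LinearMap.mulRight E x)

theorem mem_cz {x b : B} : b ∈ cz (E := E) x ↔ x * b = b * x := by
  unfold cz
  rw [LinearMap.mem_ker, LinearMap.sub_apply, LinearMap.mulLeft_apply, LinearMap.mulRight_apply,
    sub_eq_zero]

/-- the dimension of the centralizer of a noncentral element -/
theorem finrank_cz {p : ℕ} (hp : p.Prime) (hB : finrank E B = p ^ 2) {x y : B}
    (hxy : x * y ≠ y * x) : finrank E (cz (E := E) x) = p := by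
  have hdeg := deg_eq (E := E) hp hB hxy
  have hf := irr (E := E) x
  have : Fact (Irreducible (minpoly E x)) := ⟨hf⟩
  have h1 : finrank E (phi (E := E) x).range = p := by
    have h2 := (AlgEquiv.ofInjective (phi (E := E) x)
      (phi (E := E) x).toRingHom.injective).toLinearEquiv.finrank_eq
    rw [← h2, (AdjoinRoot.powerBasis hf.ne_zero).finrank, AdjoinRoot.powerBasis_dim, hdeg]
  let S : Subalgebra E B := Subalgebra.centralizer E {x}
  have hS : ∀ b, b ∈ S ↔ x * b = b * x := by
    intro b
    rw [Subalgebra.mem_centralizer_iff]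
    constructor
    · intro h
      exact h x rfl
    · rintro h _ rfl
      exact h
  have hSc : Subalgebra.toSubmodule S = cz (E := E) x := by
    ext b
    rw [Subalgebra.mem_toSubmodule, hS, mem_cz]
  have hfr : finrank E (cz (E := E) x) = finrank E S := by
    rw [← hSc]
    rfl
  have h2 := sub_dvd S
  have h3 : p ≤ finrank E S := by
    rw [← h1, ← hfr]
    refine Submodule.finrank_mono (s := Subalgebra.toSubmodule (phi (E := E) x).range) ?_
    rintro b ⟨a, rfl⟩
    rw [mem_cz]
    have h4 := phi_comm (E := E) x (AdjoinRoot.root _) a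
    rw [phi_root] at h4
    exact h4
  rw [hB] at h2
  obtain ⟨a, ha, ha2⟩ := (Nat.dvd_prime_pow hp).1 h2
  rw [hfr, ha2]
  interval_cases a
  · rw [ha2, pow_zero] at h3
    exact absurd h3 (by have := hp.two_le; omega)
  · rw [pow_one]
  · exfalso
    rw [← hB] at ha2
    have h4 : Subalgebra.toSubmodule S = ⊤ := Submodule.eq_top_of_finrank_eq ha2
    have h5 : y ∈ Subalgebra.toSubmodule S := by
      rw [h4]
      exact Submodule.mem_top
    exact hxy ((hS y).1 h5)

/-- the derivation `y ↦ [P(x), y]` when the commutator of `x` and `y` commutes with `x` -/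
theorem comm_aeval {x y z : B} (hz : x * y - y * x = z) (hxz : x * z = z * x) (P : E[X]) :
    aeval x P * y - y * aeval x P = aeval x (derivative P) * z := by
  induction P using Polynomial.induction_on' with
  | add P Q hP hQ =>
    rw [derivative_add, map_add, map_add, add_mul, mul_add, add_mul, ← hP, ← hQ]
    abel
  | monomial m c =>
    have hpow : ∀ m : ℕ, x ^ m * y - y * x ^ m = (m : B) * x ^ (m - 1) * z := by
      intro m
      induction m with
      | zero => simp
      | succ m ih =>
        have h1 : x ^ m * z = z * x ^ m := (Commute.pow_left (show Commute x z from hxz) m)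
        have h2 : x ^ (m + 1) * y - y * x ^ (m + 1) =
            x ^ m * (x * y - y * x) + (x ^ m * y - y * x ^ m) * x := by
          rw [pow_succ]
          noncomm_ring
        rw [h2, hz, ih, Nat.add_sub_cancel, Nat.cast_succ, add_mul, add_mul, one_mul, mul_assoc _ z x,
          ← hxz, ← mul_assoc _ x z]
        rcases Nat.eq_zero_or_pos m with rfl | hm
        · simp
        · rw [mul_assoc (m : B) _ x, ← pow_succ, Nat.sub_add_cancel hm, add_comm]
    rw [derivative_monomial, aeval_monomial, aeval_monomial, mul_assoc, ← mul_assoc y,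
      ← Algebra.commutes c y, mul_assoc, ← mul_sub, hpow, map_mul, map_natCast]
    simp only [mul_assoc]

variable (E) in
include E in
/-- the derivation `[x, ·]` is semisimple -/
theorem ad_zero {x y z : B} (hz : x * y - y * x = z) (hxz : x * z = z * x) : z = 0 := by
  have hf := irr (E := E) x
  have h1 := comm_aeval (E := E) hz hxz (minpoly E x)
  rw [minpoly.aeval, zero_mul, mul_zero, sub_zero] at h1
  have h2 : aeval x (derivative (minpoly E x)) ≠ 0 := by
    intro h
    have hd : derivative (minpoly E x) ≠ 0 := by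
      intro h0
      have h3 := natDegree_eq_zero_of_derivative_eq_zero h0
      have h4 := hf.natDegree_pos
      omega
    have h3 := minpoly.degree_le_of_ne_zero E x hd h
    exact absurd (degree_derivative_lt hf.ne_zero) (not_lt.2 h3)
  exact (mul_eq_zero.1 h1.symm).resolve_left h2

/-- A subspace which contains the centralizer of `x` and all commutators with `x` is everything. -/
theorem eq_top_of_cz (x : B) (S : Submodule E B) (h1 : cz (E := E) x ≤ S)
    (h2 : ∀ b, x * b - b * x ∈ S) : S = ⊤ := by
  let T : End E B := LinearMap.mulLeft E x - LinearMap.mulRight E x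
  have hT : ∀ b, T b = x * b - b * x := fun b => rfl
  have hk : LinearMap.ker T = cz (E := E) x := rfl
  have hd : Disjoint (LinearMap.ker T) (LinearMap.range T) := by
    rw [Submodule.disjoint_def]
    rintro z hz ⟨y, hy⟩
    rw [hk, mem_cz] at hz
    exact ad_zero E (hT y ▸ hy) hz
  have h3 := LinearMap.finrank_range_add_finrank_ker T
  have h4 := Submodule.finrank_sup_add_finrank_inf_eq (LinearMap.ker T) (LinearMap.range T)
  rw [hd.eq_bot, finrank_bot, add_zero] at h4
  have h5 : LinearMap.ker T ⊔ LinearMap.range T = ⊤ :=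
    Submodule.eq_top_of_finrank_eq (by rw [h4, add_comm]; exact h3)
  rw [eq_top_iff, ← h5]
  refine sup_le h1 ?_
  rintro _ ⟨b, rfl⟩
  exact h2 b

end ring

section act

variable {k W : Type*} [Field k] [CharZero k] [AddCommGroup W] [Module k W]
  [FiniteDimensional k W]

theorem nontrivial_of {x y : Module.End k W} (hxy : x * y ≠ y * x) : Nontrivial W := by
  by_contra hcon
  rw [not_nontrivial_iff_subsingleton] at hcon
  exact hxy (Subsingleton.elim _ _)

/-- a division algebra which is not commutative acts with rank one on a space of dimension `p ^ 2` -/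
theorem finrank_alg {𝒟 : Subalgebra k (Module.End k W)}
    (hinj : ∀ P ∈ 𝒟, P ≠ 0 → Function.Injective P) {p : ℕ} (hp : p.Prime)
    (hW : finrank k W = p ^ 2) (hnc : ∃ Y ∈ 𝒟, ∃ Z ∈ 𝒟, Y * Z ≠ Z * Y) :
    finrank k 𝒟 = finrank k W := by
  obtain ⟨Y, hY, Z, hZ, hYZ⟩ := hnc
  have hnt := nontrivial_of hYZ
  have hdom : IsDomain 𝒟 := by
    have h1 : Nontrivial 𝒟 := inferInstance
    have h2 : NoZeroDivisors 𝒟 := by
      refine ⟨fun {a b} hab => ?_⟩
      by_contra hcon
      push Not at hcon
      have ha : Function.Injective (a : Module.End k W) := hinj a a.2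
        (fun h => hcon.1 (Subtype.ext h))
      have hb : Function.Injective (b : Module.End k W) := hinj b b.2
        (fun h => hcon.2 (Subtype.ext h))
      obtain ⟨v, hv⟩ := exists_ne (0 : W)
      have h3 : (a : Module.End k W) ((b : Module.End k W) v) = 0 :=
        congrArg (fun T : 𝒟 => (T : Module.End k W) v) hab
      apply hv
      apply hb
      apply ha
      rw [h3, map_zero, map_zero]
    exact NoZeroDivisors.to_isDomain _
  let _ : DivisionRing 𝒟 := divisionRingOfFiniteDimensional k 𝒟
  have htow : IsScalarTower k 𝒟 W := ⟨fun a b c => rfl⟩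
  have h1 := finrank_mul_finrank k 𝒟 W
  have h2 : finrank k 𝒟 ∣ p ^ 2 := ⟨_, by rw [← hW]; exact h1.symm⟩
  rw [hW]
  exact dim_of_noncomm hp h2 (x := (⟨Y, hY⟩ : 𝒟)) (y := ⟨Z, hZ⟩)
    fun h => hYZ (congrArg Subtype.val h)

/-- the endomorphisms which commute with `𝒟` and with `x` -/
def czW (𝒟 : Subalgebra k (Module.End k W)) (x : Module.End k W) :
    Submodule k (Module.End k W) where
  carrier := {b | (∀ P ∈ 𝒟, P * b = b * P) ∧ x * b = b * x}
  zero_mem' := ⟨fun P _ => by rw [mul_zero, zero_mul], by rw [mul_zero, zero_mul]⟩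
  add_mem' := fun {a b} ha hb => ⟨fun P hP => by rw [mul_add, add_mul, ha.1 P hP, hb.1 P hP],
    by rw [mul_add, add_mul, ha.2, hb.2]⟩
  smul_mem' := fun c a ha => ⟨fun P hP => by rw [mul_smul_comm, smul_mul_assoc, ha.1 P hP],
    by rw [mul_smul_comm, smul_mul_assoc, ha.2]⟩

/-- The dimension of the centralizer, and the generation by commutators. -/
theorem act_main {𝒟 : Subalgebra k (Module.End k W)}
    (hinj : ∀ P ∈ 𝒟, P ≠ 0 → Function.Injective P) {p : ℕ} (hp : p.Prime)
    (hW : finrank k W = p ^ 2) (hnc : ∃ Y ∈ 𝒟, ∃ Z ∈ 𝒟, Y * Z ≠ Z * Y)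
    {x y : Module.End k W} (hx : ∀ P ∈ 𝒟, P * x = x * P) (hy : ∀ P ∈ 𝒟, P * y = y * P)
    (hxy : x * y ≠ y * x) :
    finrank k (czW 𝒟 x) = p ∧
      (∀ S : Submodule k (Module.End k W), czW 𝒟 x ≤ S →
        (∀ b, (∀ P ∈ 𝒟, P * b = b * P) → x * b - b * x ∈ S) →
        ∀ b, (∀ P ∈ 𝒟, P * b = b * P) → b ∈ S) ∧
      Irreducible (minpoly k x) ∧ (minpoly k x).natDegree = p := by
  have hnt := nontrivial_of hxy
  have hdim := finrank_alg hinj hp hW hnc
  set B := Subalgebra.centralizer k (𝒟 : Set (Module.End k W)) with hBdef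
  have hmem : ∀ b : Module.End k W, b ∈ B ↔ ∀ P ∈ 𝒟, P * b = b * P := fun b =>
    Subalgebra.mem_centralizer_iff k
  have hdom : IsDomain B := by
    have h1 : Nontrivial B := inferInstance
    have h2 : NoZeroDivisors B := by
      refine ⟨fun {a b} hab => ?_⟩
      by_contra hcon
      push Not at hcon
      have ha : Function.Injective (a : Module.End k W) := inj_of_comm hinj hdim
        ((hmem _).1 a.2) (fun h => hcon.1 (Subtype.ext h))
      have hb : Function.Injective (b : Module.End k W) := inj_of_comm hinj hdim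
        ((hmem _).1 b.2) (fun h => hcon.2 (Subtype.ext h))
      obtain ⟨v, hv⟩ := exists_ne (0 : W)
      have h3 : (a : Module.End k W) ((b : Module.End k W) v) = 0 :=
        congrArg (fun T : B => (T : Module.End k W) v) hab
      apply hv
      apply hb
      apply ha
      rw [h3, map_zero, map_zero]
    exact NoZeroDivisors.to_isDomain _
  let _ : DivisionRing B := divisionRingOfFiniteDimensional k B
  have hfr : finrank k B = p ^ 2 := by rw [← hW]; exact finrank_comm hinj hdim
  have hxB : x ∈ B := (hmem x).2 hx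
  have hyB : y ∈ B := (hmem y).2 hy
  have hxy' : (⟨x, hxB⟩ : B) * ⟨y, hyB⟩ ≠ ⟨y, hyB⟩ * ⟨x, hxB⟩ :=
    fun h => hxy (congrArg Subtype.val h)
  have hmap : (cz (E := k) (⟨x, hxB⟩ : B)).map B.val.toLinearMap = czW 𝒟 x := by
    ext b
    rw [Submodule.mem_map]
    constructor
    · rintro ⟨b', hb', rfl⟩
      rw [mem_cz] at hb'
      exact ⟨(hmem _).1 b'.2, congrArg Subtype.val hb'⟩
    · rintro ⟨h1, h2⟩
      exact ⟨⟨b, (hmem b).2 h1⟩, mem_cz.2 (Subtype.ext h2), rfl⟩
  have hmin : minpoly k (⟨x, hxB⟩ : B) = minpoly k x :=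
    (minpoly.algHom_eq B.val Subtype.val_injective (⟨x, hxB⟩ : B)).symm
  refine ⟨?_, ?_, ?_, ?_⟩
  · have h1 := (Submodule.equivMapOfInjective B.val.toLinearMap Subtype.val_injective
      (cz (E := k) (⟨x, hxB⟩ : B))).finrank_eq
    rw [← hmap, ← h1]
    exact finrank_cz hp hfr hxy'
  · intro S h1 h2 b hb
    have h3 := eq_top_of_cz (E := k) (⟨x, hxB⟩ : B) (S.comap B.val.toLinearMap) (by
      intro b' hb'
      rw [Submodule.mem_comap]
      apply h1
      rw [← hmap]
      exact ⟨b', hb', rfl⟩) (fun b' => by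
      rw [Submodule.mem_comap]
      exact h2 b' ((hmem _).1 b'.2))
    have h4 : (⟨b, (hmem b).2 hb⟩ : B) ∈ S.comap B.val.toLinearMap := by
      rw [h3]
      exact Submodule.mem_top
    exact h4
  · rw [← hmin]
    exact irr _
  · rw [← hmin]
    exact deg_eq hp hfr hxy'

end act

end

end Pool.Agent.N144.TD
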