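import Pool.Agent.N144.TD.Cyc

/-!
# The roots of an irreducible polynomial of prime degree in an algebraically closed field
-/

set_option autoImplicit false

namespace Pool.Agent.N144.TD

open Polynomial Module Pool.Agent.N144.DV

noncomputable section

variable {k Ω : Type*} [Field k] [CharZero k] [Field Ω] [IsAlgClosed Ω] [Algebra k Ω]

/-- The roots in an algebraically closed field, in a suitable order: if a product of powers is in the
small field, then the exponents are the same, or all quotients of roots are roots of unity. -/
theorem exists_roots {f : k[X]} (hf : Irreducible f) (hp : f.natDegree.Prime) :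
    ∃ z : ℕ → Ω, (∀ i, z i ≠ 0) ∧ (∀ i, aeval (z i) f = 0) ∧
      (∀ a : Ω, aeval a f = 0 → ∃ i < f.natDegree, a = z i) ∧
      (∀ i < f.natDegree, ∀ j < f.natDegree, z i = z j → i = j) ∧
      ∀ (e : ℕ → ℤ) (c : k), ∏ i ∈ Finset.range f.natDegree, z i ^ e i = algebraMap k Ω c →
        (∀ i < f.natDegree, e i = e 0) ∨
          ∃ M : ℕ, 0 < M ∧ ∃ c : k, ∀ i, z i ^ M = algebraMap k Ω c := by
  classical
  obtain ⟨γ, r, h1, h2, h3⟩ := exists_cycle hf hp
  obtain ⟨ε⟩ : Nonempty (f.SplittingField →ₐ[k] Ω) :=
    ⟨IsAlgClosed.lift (M := Ω) (S := f.SplittingField) (R := k)⟩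
  have hεi : Function.Injective ε := ε.toRingHom.injective
  have hr0 : r ≠ 0 := fun h => h2 (by rw [h, map_zero])
  have hz0 : ∀ i : ℕ, (γ ^ i) r ≠ 0 := fun i h => hr0 (by
    have := (γ ^ i).injective (h.trans (map_zero (γ ^ i)).symm)
    exact this)
  have hroot0 : aeval r f = 0 := by
    by_contra hcon
    have hne : (f.rootSet f.SplittingField).Nonempty := by
      have := Polynomial.card_rootSet_eq_natDegree hf.separable (SplittingField.splits f)
      by_contra hemp
      rw [Set.not_nonempty_iff_eq_empty] at hemp
      have h5 : Fintype.card (f.rootSet f.SplittingField) = 0 := by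
        rw [Fintype.card_eq_zero_iff, hemp]
        infer_instance
      rw [h5] at this
      rw [← this] at hp
      exact Nat.not_prime_zero hp
    obtain ⟨a, ha⟩ := hne
    obtain ⟨i, -, rfl⟩ := h3 a ha
    rw [mem_rootSet] at ha
    have h4 := aeval_algHom_apply ((γ ^ i : f.SplittingField ≃ₐ[k] f.SplittingField) :
      f.SplittingField →ₐ[k] f.SplittingField) r f
    change aeval ((γ ^ i) r) f = (γ ^ i) (aeval r f) at h4
    rw [ha.2] at h4
    exact hcon ((γ ^ i).injective (h4.symm.trans (map_zero (γ ^ i)).symm))
  have hroot : ∀ i : ℕ, aeval ((γ ^ i) r) f = 0 := by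
    intro i
    have h4 := aeval_algHom_apply ((γ ^ i : f.SplittingField ≃ₐ[k] f.SplittingField) :
      f.SplittingField →ₐ[k] f.SplittingField) r f
    change aeval ((γ ^ i) r) f = (γ ^ i) (aeval r f) at h4
    rw [h4, hroot0, map_zero]
  have hfix : ∀ y : f.SplittingField, ∀ c : k, ε y = algebraMap k Ω c → γ y = y := by
    intro y c hy
    have h4 : y = algebraMap k _ c := hεi (by rw [hy, AlgHom.commutes])
    rw [h4, AlgEquiv.commutes]
  refine ⟨fun i => ε ((γ ^ i) r), fun i h => hz0 i (hεi (h.trans (map_zero ε).symm)), ?_, ?_, ?_, ?_⟩
  · intro i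
    rw [aeval_algHom_apply, hroot, map_zero]
  · intro a ha
    have hspl := SplittingField.splits f
    have hmem : a ∈ (f.aroots Ω) := by
      rw [mem_aroots]
      exact ⟨hf.ne_zero, ha⟩
    have h5 : f.aroots Ω = (f.aroots f.SplittingField).map ε := by
      rw [aroots_def, aroots_def]
      have h6 : f.map (algebraMap k Ω) = (f.map (algebraMap k f.SplittingField)).map ε.toRingHom := by
        rw [Polynomial.map_map]
        congr 1
        exact (AlgHom.comp_algebraMap ε).symm
      rw [h6]
      exact hspl.roots_map ε.toRingHom
    rw [h5, Multiset.mem_map] at hmem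
    obtain ⟨b, hb, rfl⟩ := hmem
    have hb' : b ∈ f.rootSet f.SplittingField := by
      rw [mem_rootSet]
      rw [mem_aroots] at hb
      exact hb
    obtain ⟨i, hi, rfl⟩ := h3 b hb'
    exact ⟨i, hi, rfl⟩
  · have hcard : ((Finset.range f.natDegree).image fun i : ℕ => (γ ^ i) r).card = f.natDegree := by
      refine le_antisymm (Finset.card_image_le.trans (by rw [Finset.card_range])) ?_
      have h5 : (f.rootSet f.SplittingField).toFinset.card = f.natDegree := by
        rw [Set.toFinset_card]
        exact card_rootSet_eq_natDegree hf.separable (SplittingField.splits f)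
      calc f.natDegree = (f.rootSet f.SplittingField).toFinset.card := h5.symm
        _ ≤ _ := Finset.card_le_card fun a ha => by
          obtain ⟨i, hi, rfl⟩ := h3 a (Set.mem_toFinset.1 ha)
          exact Finset.mem_image.2 ⟨i, Finset.mem_range.2 hi, rfl⟩
    have hinj := Finset.injOn_of_card_image_eq (s := Finset.range f.natDegree)
      (f := fun i : ℕ => (γ ^ i) r) (by rw [hcard, Finset.card_range])
    intro i hi j hj hij
    exact hinj (Finset.mem_coe.2 (Finset.mem_range.2 hi)) (Finset.mem_coe.2 (Finset.mem_range.2 hj))
      (hεi hij)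
  · intro e c hc
    -- the additive group of the units
    let T : End ℤ (Additive (f.SplittingField)ˣ) :=
      (MonoidHom.toAdditive (Units.map (γ : f.SplittingField →* f.SplittingField))).toIntLinearMap
    let v : Additive (f.SplittingField)ˣ := Additive.ofMul (Units.mk0 r hr0)
    have hTi : ∀ i : ℕ, (T ^ i) v = Additive.ofMul (Units.mk0 ((γ ^ i) r) (hz0 i)) := by
      intro i
      induction i with
      | zero => rfl
      | succ i ih =>
        rw [pow_succ', Module.End.mul_apply, ih]
        apply Additive.toMul.injective
        apply Units.ext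
        change γ ((γ ^ i) r) = (γ ^ (i + 1)) r
        rw [pow_succ', AlgEquiv.mul_apply]
    have hTp : (T ^ f.natDegree) v = v := by
      rw [hTi]
      apply Additive.toMul.injective
      apply Units.ext
      exact h1
    have hval : ∀ (s : Finset ℕ), ((Additive.toMul (∑ i ∈ s, e i • (T ^ i) v) :
        (f.SplittingField)ˣ) : f.SplittingField) = ∏ i ∈ s, ((γ ^ i) r) ^ e i := by
      intro s
      rw [toMul_sum, Units.coe_prod]
      refine Finset.prod_congr rfl fun i _ => ?_
      rw [hTi, toMul_zsmul, Units.val_zpow_eq_zpow_val]
      rfl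
    have hT1 : T (∑ i ∈ Finset.range f.natDegree, e i • (T ^ i) v) =
        ∑ i ∈ Finset.range f.natDegree, e i • (T ^ i) v := by
      apply Additive.toMul.injective
      apply Units.ext
      change γ ((Additive.toMul (∑ i ∈ Finset.range f.natDegree, e i • (T ^ i) v) :
        (f.SplittingField)ˣ) : f.SplittingField) = _
      rw [hval]
      refine hfix _ c ?_
      rw [map_prod, ← hc]
      refine Finset.prod_congr rfl fun i _ => ?_
      rw [map_zpow₀]
    rcases cyc_rel hp T v hTp e hT1 with h | ⟨M, hM, h⟩
    · exact Or.inl h
    right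
    have h4 : (γ r) ^ M = r ^ M := by
      rw [nsmul_sub, sub_eq_zero] at h
      have h5 := congrArg (fun x : Additive (f.SplittingField)ˣ =>
        ((Additive.toMul x : (f.SplittingField)ˣ) : f.SplittingField)) h
      simp only [toMul_nsmul, Units.val_pow_eq_pow_val] at h5
      exact h5
    have h5 : ∀ i : ℕ, ((γ ^ i) r) ^ M = r ^ M := by
      intro i
      induction i with
      | zero => rfl
      | succ i ih => rw [pow_succ', AlgEquiv.mul_apply, ← map_pow, ih, map_pow, h4]
    -- the power is in the small field: the product of all roots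
    have hprod : ∃ c : k, algebraMap k f.SplittingField c = r ^ (M * f.natDegree) := by
      have h6 := hf.separable
      refine ⟨(-1) ^ (f.natDegree * M) * (f.coeff 0 * f.leadingCoeff⁻¹) ^ M, ?_⟩
      have h7 : (f.map (algebraMap k f.SplittingField)).roots =
          ((Finset.range f.natDegree).image fun i : ℕ => (γ ^ i) r).val := by
        have hnd : (f.map (algebraMap k f.SplittingField)).roots.Nodup :=
          nodup_roots (h6.map)
        have h8 : (f.map (algebraMap k f.SplittingField)).roots =
            (f.map (algebraMap k f.SplittingField)).roots.toFinset.val := by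
          rw [Multiset.toFinset_val, hnd.dedup]
        rw [h8]
        congr 1
        ext a
        rw [Multiset.mem_toFinset, Finset.mem_image]
        constructor
        · intro ha
          have ha' : a ∈ f.rootSet f.SplittingField := by
            rw [mem_rootSet]
            have := (mem_aroots.1 ha)
            exact this
          obtain ⟨i, hi, rfl⟩ := h3 a ha'
          exact ⟨i, Finset.mem_range.2 hi, rfl⟩
        · rintro ⟨i, _, rfl⟩
          exact mem_aroots.2 ⟨hf.ne_zero, hroot i⟩
      have hcardI : ((Finset.range f.natDegree).image fun i : ℕ => (γ ^ i) r).card =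
          f.natDegree := by
        have h9 := congrArg Multiset.card h7
        have h10 := splits_iff_card_roots.1 (SplittingField.splits f)
        rw [h10, natDegree_map] at h9
        exact h9.symm
      have hinj := Finset.injOn_of_card_image_eq (s := Finset.range f.natDegree)
        (f := fun i : ℕ => (γ ^ i) r) (by rw [hcardI, Finset.card_range])
      have h8 : (f.map (algebraMap k f.SplittingField)).coeff 0 =
          (-1) ^ f.natDegree * (algebraMap k f.SplittingField f.leadingCoeff) *
            ∏ i ∈ Finset.range f.natDegree, (γ ^ i) r := by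
        have h9 := (SplittingField.splits f).coeff_zero_eq_leadingCoeff_mul_prod_roots
        rw [h9, natDegree_map, leadingCoeff_map, h7]
        congr 1
        rw [← Finset.prod_image (f := fun x => x) hinj]
        change Multiset.prod _ = Finset.prod _ _
        rw [Finset.prod_eq_multiset_prod, Multiset.map_id']
      have hl : algebraMap k f.SplittingField f.leadingCoeff ≠ 0 := by
        rw [Ne, FaithfulSMul.algebraMap_eq_zero_iff, leadingCoeff_eq_zero]
        exact hf.ne_zero
      rw [coeff_map] at h8
      rw [map_mul, map_pow, map_neg, map_one, map_pow, map_mul, map_inv₀, h8]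
      have h9 : (∏ i ∈ Finset.range f.natDegree, (γ ^ i) r) ^ M = r ^ (M * f.natDegree) := by
        rw [← Finset.prod_pow, Finset.prod_congr rfl (fun i _ => h5 i), Finset.prod_const,
          Finset.card_range, ← pow_mul]
      rw [← h9, pow_mul, ← mul_pow]
      congr 1
      have h10 : ((-1 : f.SplittingField) ^ f.natDegree) * (-1) ^ f.natDegree = 1 := by
        rw [← mul_pow, neg_one_mul, neg_neg, one_pow]
      field_simp
      linear_combination (∏ i ∈ Finset.range f.natDegree, (γ ^ i) r) * h10
    obtain ⟨c', hc'⟩ := hprod
    refine ⟨M * f.natDegree, Nat.mul_pos hM hp.pos, c', fun i => ?_⟩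
    rw [← map_pow, ← ε.commutes, hc', pow_mul, h5, ← pow_mul]

end

end Pool.Agent.N144.TD
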